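import Mathlib

set_option autoImplicit false

noncomputable section

namespace Pool.Agent.Helper68.BA

open MeasureTheory Set Filter Topology Complex

/-- The Wirtinger derivative `∂φ = (φ_x - i φ_y)/2`. -/
def dz (φ : ℂ → ℂ) (z : ℂ) : ℂ := (fderiv ℝ φ z 1 - I * fderiv ℝ φ z I) / 2

/-- The Wirtinger derivative `∂̄φ = (φ_x + i φ_y)/2`. -/
def dzbar (φ : ℂ → ℂ) (z : ℂ) : ℂ := (fderiv ℝ φ z 1 + I * fderiv ℝ φ z I) / 2

/-- `φ` has angular mode `k`: `φ(e^{iθ} z) = e^{ikθ} φ(z)`. -/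
def HasMode (k : ℤ) (φ : ℂ → ℂ) : Prop :=
  ∀ (θ : ℝ) (z : ℂ), φ (cexp (θ * I) * z) = cexp (k * θ * I) * φ z

/-- The radial profile in the variable `y = 2 log r`. -/
def prof (ψ : ℂ → ℂ) (y : ℝ) : ℂ := ψ ((Real.exp (y / 2) : ℝ) : ℂ)

/-- The residues `r_j = ∏_{i<K} (2b+1+i+j) / ∏_{i≠j} (j-i)`. -/
def rc (b : ℝ) (K j : ℕ) : ℝ :=
  (∏ i ∈ Finset.range K, (2 * b + 1 + i + j)) / ∏ i ∈ (Finset.range K).erase j, ((j : ℝ) - i)

/-- The kernel `∑_{j<K} r_j e^{-(β+j)u}`. -/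
def ker (b : ℝ) (K : ℕ) (β u : ℝ) : ℝ :=
  ∑ j ∈ Finset.range K, rc b K j * Real.exp (-(β + j) * u)

/-- The convolution operator `S f (y) = f(y) - ∫_0^∞ κ(u) f(y+u) du`. -/
def Sop (κ : ℝ → ℝ) (f : ℝ → ℂ) (y : ℝ) : ℂ :=
  f y - ∫ u in Ioi (0 : ℝ), (κ u : ℂ) * f (y + u)

/-- Auxiliary functions: `eta b m β` has transform
`∏_{i=1}^m (X+b+i)/(X-b-i) / (β - X)`. -/
def eta (b : ℝ) : ℕ → ℝ → ℝ → ℝ
  | 0, β, u => Real.exp (-β * u)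
  | m + 1, β, u =>
      ((β + (b + m + 1)) * eta b m β u - 2 * (b + m + 1) * eta b m (b + m + 1) u) /
        (β - (b + m + 1))

/-- Auxiliary functions: `kk b m = -(d/du + β) (eta b m β)` for every `β`. -/
def kk (b : ℝ) : ℕ → ℝ → ℝ
  | 0, _ => 0
  | m + 1, u => kk b m u + 2 * (b + m + 1) * eta b m (b + m + 1) u

end Pool.Agent.Helper68.BA
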