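import Pool.Agent.Helper68.BA.RE

set_option autoImplicit false

/-! From the Wirtinger form to the Fourier multiplier form. -/

noncomputable section

namespace Pool.Agent.Helper68.BA

open MeasureTheory Set Filter Topology Complex FourierTransform SchwartzMap
open scoped ContDiff SchwartzMap LineDeriv ENNReal

/-! ### angular modes and the Fourier transform -/

lemma fourier_const_mul' (c : ℂ) (f : ℂ → ℂ) (w : ℂ) :
    𝓕 (fun z => c * f z) w = c * 𝓕 f w := by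
  rw [Real.fourier_eq, Real.fourier_eq, ← integral_const_mul]
  congr 1
  funext v
  simp only [Circle.smul_def, smul_eq_mul]
  ring

lemma fourierInv_const_mul' (c : ℂ) (f : ℂ → ℂ) (w : ℂ) :
    𝓕⁻ (fun z => c * f z) w = c * 𝓕⁻ f w := by
  rw [Real.fourierInv_eq, Real.fourierInv_eq, ← integral_const_mul]
  congr 1
  funext v
  simp only [Circle.smul_def, smul_eq_mul]
  ring

lemma hasMode_fourier {m : ℤ} {f : ℂ → ℂ} (h : HasMode m f) : HasMode m (𝓕 f) := by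
  intro θ z
  have h1 := Real.fourier_comp_linearIsometry (rotation (Circle.exp θ)) f z
  have h2 : f ∘ (rotation (Circle.exp θ)) = fun z => cexp (m * θ * I) * f z := by
    funext w
    simp only [Function.comp_apply, rotation_apply, Circle.coe_exp]
    exact h θ w
  rw [h2, fourier_const_mul', rotation_apply, Circle.coe_exp] at h1
  exact h1.symm

lemma hasMode_fourierInv {m : ℤ} {f : ℂ → ℂ} (h : HasMode m f) : HasMode m (𝓕⁻ f) := by
  intro θ z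
  have h1 := Real.fourierInv_comp_linearIsometry (rotation (Circle.exp θ)) f z
  have h2 : f ∘ (rotation (Circle.exp θ)) = fun z => cexp (m * θ * I) * f z := by
    funext w
    simp only [Function.comp_apply, rotation_apply, Circle.coe_exp]
    exact h θ w
  rw [h2, fourierInv_const_mul', rotation_apply, Circle.coe_exp] at h1
  exact h1.symm

/-! ### multipliers -/

/-- the Schwartz function with Fourier transform `g * 𝓕 f` -/
abbrev MM (g : ℂ → ℂ) (f : 𝓢(ℂ, ℂ)) : 𝓢(ℂ, ℂ) := fourierMultiplierCLM ℂ g f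

lemma MM_coe {g : ℂ → ℂ} (hg : g.HasTemperateGrowth) (f : 𝓢(ℂ, ℂ)) :
    (MM g f : ℂ → ℂ) = 𝓕⁻ (fun ξ => g ξ * 𝓕 (f : ℂ → ℂ) ξ) := by
  rw [MM, fourierMultiplierCLM_apply, fourierInv_coe]
  congr 1
  funext ξ
  rw [smulLeftCLM_apply_apply hg, smul_eq_mul, fourier_coe]

lemma MM_add {g₁ g₂ : ℂ → ℂ} (hg₁ : g₁.HasTemperateGrowth) (hg₂ : g₂.HasTemperateGrowth)
    (f : 𝓢(ℂ, ℂ)) : MM (g₁ + g₂) f = MM g₁ f + MM g₂ f := by
  simp only [MM, fourierMultiplierCLM_apply, smulLeftCLM_add hg₁ hg₂]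
  exact map_add (fourierInvCLM ℂ 𝓢(ℂ, ℂ)) _ _

lemma MM_sub {g₁ g₂ : ℂ → ℂ} (hg₁ : g₁.HasTemperateGrowth) (hg₂ : g₂.HasTemperateGrowth)
    (f : 𝓢(ℂ, ℂ)) : MM (g₁ - g₂) f = MM g₁ f - MM g₂ f := by
  simp only [MM, fourierMultiplierCLM_apply, smulLeftCLM_sub hg₁ hg₂]
  exact map_sub (fourierInvCLM ℂ 𝓢(ℂ, ℂ)) _ _

lemma MM_smul {g : ℂ → ℂ} (hg : g.HasTemperateGrowth) (c : ℂ) (f : 𝓢(ℂ, ℂ)) :
    MM (c • g) f = c • MM g f := by
  simp only [MM, fourierMultiplierCLM_smul hg]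
  rfl

lemma MM_MM {g₁ g₂ : ℂ → ℂ} (hg₁ : g₁.HasTemperateGrowth) (hg₂ : g₂.HasTemperateGrowth)
    (f : 𝓢(ℂ, ℂ)) : MM g₁ (MM g₂ f) = MM (g₁ * g₂) f :=
  fourierMultiplierCLM_fourierMultiplierCLM_apply hg₁ hg₂ f

lemma tg_re : (fun ξ : ℂ => ((ξ.re : ℝ) : ℂ)).HasTemperateGrowth := by
  have : (fun ξ : ℂ => ((ξ.re : ℝ) : ℂ)) = fun ξ => (Complex.ofRealCLM.comp Complex.reCLM) ξ := rfl
  rw [this]
  exact ContinuousLinearMap.hasTemperateGrowth _

lemma tg_im : (fun ξ : ℂ => ((ξ.im : ℝ) : ℂ)).HasTemperateGrowth := by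
  have : (fun ξ : ℂ => ((ξ.im : ℝ) : ℂ)) = fun ξ => (Complex.ofRealCLM.comp Complex.imCLM) ξ := rfl
  rw [this]
  exact ContinuousLinearMap.hasTemperateGrowth _

lemma lineDeriv_one (f : 𝓢(ℂ, ℂ)) :
    ∂_{(1 : ℂ)} f = (2 * Real.pi * I) • MM (fun ξ => ((ξ.re : ℝ) : ℂ)) f := by
  rw [lineDeriv_eq_fourierMultiplierCLM]
  congr 1
  have h : (fun x : ℂ => inner ℝ x (1 : ℂ)) = fun x => x.re := by
    funext x
    simp [Complex.inner]
  have hg : (fun x : ℂ => x.re).HasTemperateGrowth :=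
    ContinuousLinearMap.hasTemperateGrowth Complex.reCLM
  change fourierMultiplierCLM ℂ (fun x : ℂ => inner ℝ x (1 : ℂ)) f = _
  rw [h, ← fourierMultiplierCLM_ofReal ℂ hg]
  rfl

lemma lineDeriv_I (f : 𝓢(ℂ, ℂ)) :
    ∂_{(I : ℂ)} f = (2 * Real.pi * I) • MM (fun ξ => ((ξ.im : ℝ) : ℂ)) f := by
  rw [lineDeriv_eq_fourierMultiplierCLM]
  congr 1
  have h : (fun x : ℂ => inner ℝ x (I : ℂ)) = fun x => x.im := by
    funext x
    simp [Complex.inner]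
  have hg : (fun x : ℂ => x.im).HasTemperateGrowth :=
    ContinuousLinearMap.hasTemperateGrowth Complex.imCLM
  change fourierMultiplierCLM ℂ (fun x : ℂ => inner ℝ x (I : ℂ)) f = _
  rw [h, ← fourierMultiplierCLM_ofReal ℂ hg]
  rfl

/-- symbol of `dz` -/
def sz (ξ : ℂ) : ℂ := Real.pi * I * (starRingEnd ℂ) ξ

/-- symbol of `dzbar` -/
def szb (ξ : ℂ) : ℂ := Real.pi * I * ξ

lemma tg_sz : sz.HasTemperateGrowth := by
  have : sz = fun ξ => (Real.pi * I : ℂ) * (Complex.conjCLE.toContinuousLinearMap ξ) := by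
    funext ξ; rfl
  rw [this]
  exact (Function.HasTemperateGrowth.const _).mul (ContinuousLinearMap.hasTemperateGrowth _)

lemma tg_szb : szb.HasTemperateGrowth := by
  have : szb = fun ξ => (Real.pi * I : ℂ) * ξ := rfl
  rw [this]
  exact (Function.HasTemperateGrowth.const _).mul Function.HasTemperateGrowth.id'

lemma dzS_eq (f : 𝓢(ℂ, ℂ)) : dzS f = MM sz f := by
  have h : sz = (Real.pi * I : ℂ) • ((fun ξ : ℂ => ((ξ.re : ℝ) : ℂ)) -
      I • (fun ξ : ℂ => ((ξ.im : ℝ) : ℂ))) := by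
    funext ξ
    simp only [sz, Pi.smul_apply, Pi.sub_apply, smul_eq_mul]
    congr 1
    apply Complex.ext <;> simp
  have hi : (I • (fun ξ : ℂ => ((ξ.im : ℝ) : ℂ))).HasTemperateGrowth :=
    (Function.HasTemperateGrowth.const I).mul tg_im
  have hs : ((fun ξ : ℂ => ((ξ.re : ℝ) : ℂ)) -
      I • (fun ξ : ℂ => ((ξ.im : ℝ) : ℂ))).HasTemperateGrowth := tg_re.sub hi
  rw [h, MM_smul hs, MM_sub tg_re hi, MM_smul tg_im, dzS, lineDeriv_one, lineDeriv_I,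
    smul_comm I, ← smul_sub, smul_smul]
  congr 1
  ring

lemma dzbarS_eq (f : 𝓢(ℂ, ℂ)) : dzbarS f = MM szb f := by
  have h : szb = (Real.pi * I : ℂ) • ((fun ξ : ℂ => ((ξ.re : ℝ) : ℂ)) +
      I • (fun ξ : ℂ => ((ξ.im : ℝ) : ℂ))) := by
    funext ξ
    simp only [szb, Pi.smul_apply, Pi.add_apply, smul_eq_mul]
    congr 1
    apply Complex.ext <;> simp
  have hi : (I • (fun ξ : ℂ => ((ξ.im : ℝ) : ℂ))).HasTemperateGrowth :=
    (Function.HasTemperateGrowth.const I).mul tg_im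
  have hs : ((fun ξ : ℂ => ((ξ.re : ℝ) : ℂ)) +
      I • (fun ξ : ℂ => ((ξ.im : ℝ) : ℂ))).HasTemperateGrowth := tg_re.add hi
  rw [h, MM_smul hs, MM_add tg_re hi, MM_smul tg_im, dzbarS, lineDeriv_one, lineDeriv_I,
    smul_comm I, ← smul_add, smul_smul]
  congr 1
  ring

lemma dzS_iter {g : ℂ → ℂ} (hg : g.HasTemperateGrowth) (f : 𝓢(ℂ, ℂ)) (n : ℕ) :
    dzS^[n] (MM g f) = MM (sz ^ n * g) f := by
  induction n with
  | zero => simp
  | succ n ih =>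
    rw [Function.iterate_succ_apply', ih, dzS_eq, MM_MM tg_sz ((tg_sz.pow n).mul hg), pow_succ',
      mul_assoc]

lemma dzbarS_iter {g : ℂ → ℂ} (hg : g.HasTemperateGrowth) (f : 𝓢(ℂ, ℂ)) (n : ℕ) :
    dzbarS^[n] (MM g f) = MM (szb ^ n * g) f := by
  induction n with
  | zero => simp
  | succ n ih =>
    rw [Function.iterate_succ_apply', ih, dzbarS_eq, MM_MM tg_szb ((tg_szb.pow n).mul hg),
      pow_succ', mul_assoc]

/-! ### the regularising multipliers -/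

/-- `t^2 / (1 + t^2 |ξ|^2)` -/
def ww (t : ℕ) (ξ : ℂ) : ℝ := t ^ 2 * (1 + ‖(t : ℝ) • ξ‖ ^ 2) ^ (-1 : ℝ)

/-- `t^2 |ξ|^2 / (1 + t^2 |ξ|^2)` -/
def qq (t : ℕ) (ξ : ℂ) : ℝ := ‖ξ‖ ^ 2 * ww t ξ

lemma ww_eq (t : ℕ) (ξ : ℂ) : ww t ξ = t ^ 2 / (1 + t ^ 2 * ‖ξ‖ ^ 2) := by
  unfold ww
  rw [norm_smul, Real.rpow_neg_one, ← div_eq_mul_inv, mul_pow, Real.norm_natCast]

lemma qq_eq (t : ℕ) (ξ : ℂ) : qq t ξ = 1 - 1 / (1 + t ^ 2 * ‖ξ‖ ^ 2) := by
  unfold qq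
  rw [ww_eq]
  have : (0 : ℝ) < 1 + t ^ 2 * ‖ξ‖ ^ 2 := by positivity
  field_simp
  ring

lemma qq_nonneg (t : ℕ) (ξ : ℂ) : 0 ≤ qq t ξ := by
  unfold qq
  rw [ww_eq]
  positivity

lemma qq_le_one (t : ℕ) (ξ : ℂ) : qq t ξ ≤ 1 := by
  rw [qq_eq]
  have : (0 : ℝ) ≤ 1 / (1 + t ^ 2 * ‖ξ‖ ^ 2) := by positivity
  linarith

lemma qq_tendsto {ξ : ℂ} (hξ : ξ ≠ 0) : Tendsto (fun t : ℕ => qq t ξ) atTop (𝓝 1) := by
  have h0 : 0 < ‖ξ‖ ^ 2 := by positivity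
  have h1 : Tendsto (fun t : ℕ => 1 + (t : ℝ) ^ 2 * ‖ξ‖ ^ 2) atTop atTop := by
    apply tendsto_atTop_add_const_left
    exact ((tendsto_pow_atTop two_ne_zero).comp tendsto_natCast_atTop_atTop).atTop_mul_const h0
  have h2 : Tendsto (fun t : ℕ => 1 - 1 / (1 + (t : ℝ) ^ 2 * ‖ξ‖ ^ 2)) atTop (𝓝 (1 - 0)) :=
    (tendsto_const_nhds).sub (h1.const_div_atTop 1)
  rw [sub_zero] at h2
  exact h2.congr fun t => (qq_eq t ξ).symm

lemma tg_ww (t : ℕ) : (fun ξ => ((ww t ξ : ℝ) : ℂ)).HasTemperateGrowth := by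
  have h1 : (fun ξ : ℂ => (1 + ‖(t : ℝ) • ξ‖ ^ 2) ^ (-1 : ℝ)).HasTemperateGrowth := by
    have h2 := Function.hasTemperateGrowth_one_add_norm_sq_rpow ℂ (-1)
    have h3 : (fun ξ : ℂ => ((t : ℝ) • ContinuousLinearMap.id ℝ ℂ) ξ).HasTemperateGrowth :=
      ContinuousLinearMap.hasTemperateGrowth _
    exact h2.comp h3
  have h4 : (ww t).HasTemperateGrowth :=
    (Function.HasTemperateGrowth.const ((t : ℝ) ^ 2)).mul h1
  exact Function.HasTemperateGrowth.comp (Complex.ofRealCLM.hasTemperateGrowth) h4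

/-- the symbol of the approximate inverse of `dzbar` -/
def uu (t : ℕ) (ξ : ℂ) : ℂ := (1 / (Real.pi * I)) * ((starRingEnd ℂ) ξ * ((ww t ξ : ℝ) : ℂ))

lemma tg_uu (t : ℕ) : (uu t).HasTemperateGrowth := by
  have h1 : (fun ξ : ℂ => (starRingEnd ℂ) ξ).HasTemperateGrowth := by
    have : (fun ξ : ℂ => (starRingEnd ℂ) ξ) =
      fun ξ => (Complex.conjCLE.toContinuousLinearMap ξ) := rfl
    rw [this]
    exact ContinuousLinearMap.hasTemperateGrowth _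
  exact (Function.HasTemperateGrowth.const _).mul (h1.mul (tg_ww t))

lemma pi_I_ne : (Real.pi * I : ℂ) ≠ 0 :=
  mul_ne_zero (by exact_mod_cast Real.pi_ne_zero) I_ne_zero

lemma szb_uu (t : ℕ) (ξ : ℂ) : szb ξ * uu t ξ = ((qq t ξ : ℝ) : ℂ) := by
  unfold szb uu qq
  have h1 := pi_I_ne
  have h2 : ξ * (starRingEnd ℂ) ξ = ((‖ξ‖ ^ 2 : ℝ) : ℂ) := by
    rw [Complex.mul_conj, Complex.normSq_eq_norm_sq]
  have h3 : (Real.pi * I : ℂ) * (1 / (Real.pi * I)) = 1 := by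
    rw [mul_one_div, div_self h1]
  rw [Complex.ofReal_mul, ← h2]
  linear_combination (ξ * (starRingEnd ℂ) ξ * ((ww t ξ : ℝ) : ℂ)) * h3

lemma sz_uu (t : ℕ) (ξ : ℂ) : sz ξ * uu t ξ = ((starRingEnd ℂ) ξ / ξ) * ((qq t ξ : ℝ) : ℂ) := by
  rcases eq_or_ne ξ 0 with rfl | hξ
  · simp [sz]
  · have h : sz ξ = ((starRingEnd ℂ) ξ / ξ) * szb ξ := by
      unfold sz szb
      field_simp
    rw [h, mul_assoc, szb_uu]

lemma norm_conj_div (ξ : ℂ) : ‖(starRingEnd ℂ) ξ / ξ‖ ≤ 1 := by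
  rw [norm_div, RCLike.norm_conj]
  exact div_self_le_one _

/-- the approximating function -/
def phi (n t : ℕ) (f : 𝓢(ℂ, ℂ)) : 𝓢(ℂ, ℂ) := MM (uu t ^ n) f

lemma uu_mode (t : ℕ) : HasMode (-1) (uu t) := by
  intro θ z
  have h1 : ww t (cexp (θ * I) * z) = ww t z := by
    rw [ww_eq, ww_eq, norm_mul, Complex.norm_exp_ofReal_mul_I, one_mul]
  have h2 : (starRingEnd ℂ) (cexp (θ * I)) = cexp (((-1 : ℤ) : ℂ) * θ * I) := by
    rw [← Complex.exp_conj]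
    congr 1
    simp
  unfold uu
  rw [h1, map_mul, h2]
  ring

lemma HasMode.mul {k l : ℤ} {f g : ℂ → ℂ} (hf : HasMode k f) (hg : HasMode l g) :
    HasMode (k + l) (fun z => f z * g z) := by
  intro θ z
  beta_reduce
  rw [hf θ z, hg θ z]
  have : cexp (((k + l : ℤ) : ℂ) * θ * I) = cexp (k * θ * I) * cexp (l * θ * I) := by
    rw [← Complex.exp_add]
    congr 1
    push_cast
    ring
  rw [this]
  ring

lemma HasMode.pow {k : ℤ} {f : ℂ → ℂ} (hf : HasMode k f) (n : ℕ) :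
    HasMode (n * k) (f ^ n) := by
  intro θ z
  rw [Pi.pow_apply, Pi.pow_apply, hf θ z, mul_pow, ← Complex.exp_nat_mul]
  congr 2
  push_cast
  ring

lemma phi_mode (n t : ℕ) {m : ℤ} (f : 𝓢(ℂ, ℂ)) (hf : HasMode m f) :
    HasMode (m - n) (phi n t f) := by
  rw [phi, MM_coe ((tg_uu t).pow n)]
  have h1 := ((uu_mode t).pow n).mul (hasMode_fourier hf)
  rw [show ((n : ℤ) * (-1) + m) = m - n by ring] at h1
  exact hasMode_fourierInv h1

lemma dzbar_phi (n t : ℕ) (f : 𝓢(ℂ, ℂ)) :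
    (dzbarS^[n] (phi n t f) : 𝓢(ℂ, ℂ)) = MM ((fun ξ => ((qq t ξ : ℝ) : ℂ)) ^ n) f := by
  rw [phi, dzbarS_iter ((tg_uu t).pow n), ← mul_pow]
  congr 2
  funext ξ
  exact szb_uu t ξ

lemma dz_phi (n t : ℕ) (f : 𝓢(ℂ, ℂ)) :
    (dzS^[n] (phi n t f) : ℂ → ℂ) =
      𝓕⁻ (fun ξ => (((starRingEnd ℂ) ξ / ξ) * ((qq t ξ : ℝ) : ℂ)) ^ n * 𝓕 (f : ℂ → ℂ) ξ) := by
  rw [phi, dzS_iter ((tg_uu t).pow n), MM_coe ((tg_sz.pow n).mul ((tg_uu t).pow n)), ← mul_pow]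
  congr 1
  funext ξ
  simp only [Pi.pow_apply, Pi.mul_apply]
  rw [sz_uu]

lemma fourierInv_tendsto (f : 𝓢(ℂ, ℂ)) (G : ℕ → ℂ → ℂ) (G' : ℂ → ℂ)
    (hG : ∀ t, AEStronglyMeasurable (G t) volume) (hb : ∀ t ξ, ‖G t ξ‖ ≤ 1)
    (hl : ∀ᵐ ξ, Tendsto (fun t => G t ξ) atTop (𝓝 (G' ξ))) (z : ℂ) :
    Tendsto (fun t => 𝓕⁻ (fun ξ => G t ξ * 𝓕 (f : ℂ → ℂ) ξ) z) atTop
      (𝓝 (𝓕⁻ (fun ξ => G' ξ * 𝓕 (f : ℂ → ℂ) ξ) z)) := by
  simp only [Real.fourierInv_eq]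
  have hF : Integrable (𝓕 (f : ℂ → ℂ)) := by
    rw [← fourier_coe]
    exact (𝓕 f).integrable
  refine tendsto_integral_of_dominated_convergence (fun ξ => ‖𝓕 (f : ℂ → ℂ) ξ‖) ?_ hF.norm ?_ ?_
  · intro t
    have h1 : AEStronglyMeasurable (fun ξ => G t ξ * 𝓕 (f : ℂ → ℂ) ξ) volume :=
      (hG t).mul hF.aestronglyMeasurable
    have h2 : Continuous fun v : ℂ => Real.fourierChar (inner ℝ v z) :=
      Real.continuous_fourierChar.comp (by fun_prop)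
    have h3 : Continuous fun v : ℂ => ((Real.fourierChar (inner ℝ v z) : Circle) : ℂ) :=
      continuous_subtype_val.comp h2
    exact h3.aestronglyMeasurable.mul h1
  · intro t
    refine ae_of_all _ fun ξ => ?_
    rw [Circle.norm_smul, norm_mul]
    exact mul_le_of_le_one_left (norm_nonneg _) (hb t ξ)
  · filter_upwards [hl] with ξ hξ
    exact (hξ.mul_const _).const_smul _

lemma norm_fourierInv_le (g : ℂ → ℂ) (z : ℂ) : ‖𝓕⁻ g z‖ ≤ ∫ ξ, ‖g ξ‖ := by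
  rw [Real.fourierInv_eq]
  refine (norm_integral_le_integral_norm _).trans (le_of_eq ?_)
  congr 1
  funext ξ
  rw [Circle.norm_smul]

/-- the remainder `f - dzbar^n phi` -/
def rem (n t : ℕ) (f : 𝓢(ℂ, ℂ)) : 𝓢(ℂ, ℂ) := f - dzbarS^[n] (phi n t f)

/-- the symbol of the remainder -/
def rr (n t : ℕ) (ξ : ℂ) : ℂ := 1 - ((qq t ξ : ℝ) : ℂ) ^ n

lemma tg_qq (t : ℕ) : (fun ξ => ((qq t ξ : ℝ) : ℂ)).HasTemperateGrowth := by
  have : (fun ξ => ((qq t ξ : ℝ) : ℂ)) = fun ξ => szb ξ * uu t ξ := by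
    funext ξ; rw [szb_uu]
  rw [this]
  exact tg_szb.mul (tg_uu t)

lemma tg_rr (n t : ℕ) : (rr n t).HasTemperateGrowth :=
  (Function.HasTemperateGrowth.const 1).sub ((tg_qq t).pow n)

lemma rem_eq (n t : ℕ) (f : 𝓢(ℂ, ℂ)) : rem n t f = MM (rr n t) f := by
  have h1 : f = MM (fun _ => 1) f := by
    rw [MM, fourierMultiplierCLM_const]
    simp
  have h2 : rr n t = (fun _ => 1) - (fun ξ => ((qq t ξ : ℝ) : ℂ)) ^ n := rfl
  rw [rem, dzbar_phi, h2, MM_sub (Function.HasTemperateGrowth.const 1) ((tg_qq t).pow n), ← h1]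

lemma rr_eq (n t : ℕ) (ξ : ℂ) : rr n t ξ = ((1 - qq t ξ ^ n : ℝ) : ℂ) := by
  unfold rr
  push_cast
  rfl

lemma norm_rr_le (n t : ℕ) (ξ : ℂ) : ‖rr n t ξ‖ ≤ 1 := by
  rw [rr_eq, Complex.norm_real, Real.norm_eq_abs, abs_le]
  have h1 := pow_nonneg (qq_nonneg t ξ) n
  have h2 := pow_le_one₀ (n := n) (qq_nonneg t ξ) (qq_le_one t ξ)
  constructor <;> linarith

lemma rr_tendsto (n : ℕ) {ξ : ℂ} (hξ : ξ ≠ 0) : Tendsto (fun t => rr n t ξ) atTop (𝓝 0) := by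
  have h1 := (tendsto_const_nhds (x := (1 : ℂ))).sub
    (((Complex.continuous_ofReal.tendsto _).comp (qq_tendsto hξ)).pow n)
  simp only [Complex.ofReal_one, one_pow, sub_self] at h1
  exact h1

lemma ae_ne_zero : ∀ᵐ ξ : ℂ, ξ ≠ 0 := by
  have : (volume : Measure ℂ) {0} = 0 := measure_singleton 0
  rw [ae_iff]
  simp

lemma fourier_integrable (f : 𝓢(ℂ, ℂ)) : Integrable (𝓕 (f : ℂ → ℂ)) := by
  rw [← fourier_coe]
  exact (𝓕 f).integrable

/-- `L^1` size of the remainder on the Fourier side -/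
def e1 (n t : ℕ) (f : 𝓢(ℂ, ℂ)) : ℝ := ∫ ξ, ‖rr n t ξ * 𝓕 (f : ℂ → ℂ) ξ‖

/-- `L^2` size of the remainder on the Fourier side -/
def e2 (n t : ℕ) (f : 𝓢(ℂ, ℂ)) : ℝ := ∫ ξ, ‖rr n t ξ * 𝓕 (f : ℂ → ℂ) ξ‖ ^ 2

lemma rr_meas (n t : ℕ) : AEStronglyMeasurable (rr n t) volume :=
  ((tg_rr n t).1.continuous).aestronglyMeasurable

lemma e1_tendsto (n : ℕ) (f : 𝓢(ℂ, ℂ)) : Tendsto (fun t => e1 n t f) atTop (𝓝 0) := by
  have h0 : (0 : ℝ) = ∫ _ξ : ℂ, (0 : ℝ) := by simp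
  rw [h0]
  refine tendsto_integral_of_dominated_convergence (fun ξ => ‖𝓕 (f : ℂ → ℂ) ξ‖) ?_
    (fourier_integrable f).norm ?_ ?_
  · intro t
    exact ((rr_meas n t).mul (fourier_integrable f).aestronglyMeasurable).norm
  · intro t
    refine ae_of_all _ fun ξ => ?_
    rw [norm_norm, norm_mul]
    exact mul_le_of_le_one_left (norm_nonneg _) (norm_rr_le n t ξ)
  · filter_upwards [ae_ne_zero] with ξ hξ
    have := ((rr_tendsto n hξ).mul_const (𝓕 (f : ℂ → ℂ) ξ)).norm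
    simpa using this

lemma fourier_sq_integrable (f : 𝓢(ℂ, ℂ)) : Integrable (fun ξ => ‖𝓕 (f : ℂ → ℂ) ξ‖ ^ 2) := by
  rw [← fourier_coe]
  have h := (𝓕 f).memLp 2 (volume : Measure ℂ)
  exact (memLp_two_iff_integrable_sq_norm h.1).1 h

lemma e2_tendsto (n : ℕ) (f : 𝓢(ℂ, ℂ)) : Tendsto (fun t => e2 n t f) atTop (𝓝 0) := by
  have h0 : (0 : ℝ) = ∫ _ξ : ℂ, (0 : ℝ) := by simp
  rw [h0]
  refine tendsto_integral_of_dominated_convergence (fun ξ => ‖𝓕 (f : ℂ → ℂ) ξ‖ ^ 2) ?_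
    (fourier_sq_integrable f) ?_ ?_
  · intro t
    exact ((rr_meas n t).mul (fourier_integrable f).aestronglyMeasurable).norm.pow 2
  · intro t
    refine ae_of_all _ fun ξ => ?_
    rw [Real.norm_of_nonneg (by positivity), norm_mul]
    have := mul_le_of_le_one_left (norm_nonneg (𝓕 (f : ℂ → ℂ) ξ)) (norm_rr_le n t ξ)
    exact pow_le_pow_left₀ (by positivity) this 2
  · filter_upwards [ae_ne_zero] with ξ hξ
    have := (((rr_tendsto n hξ).mul_const (𝓕 (f : ℂ → ℂ) ξ)).norm).pow 2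
    simpa using this

lemma rem_sup (n t : ℕ) (f : 𝓢(ℂ, ℂ)) (z : ℂ) : ‖rem n t f z‖ ≤ e1 n t f := by
  rw [rem_eq, MM_coe (tg_rr n t)]
  exact norm_fourierInv_le _ z

lemma rem_L2 (n t : ℕ) (f : 𝓢(ℂ, ℂ)) : ∫ z, ‖rem n t f z‖ ^ 2 = e2 n t f := by
  rw [← integral_norm_sq_fourier, rem_eq, MM, fourierMultiplierCLM_apply,
    FourierTransform.fourier_fourierInv_eq, e2]
  congr 1
  funext ξ
  rw [smulLeftCLM_apply_apply (tg_rr n t), smul_eq_mul, fourier_coe]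

lemma e1_nonneg (n t : ℕ) (f : 𝓢(ℂ, ℂ)) : 0 ≤ e1 n t f :=
  integral_nonneg fun _ => norm_nonneg _

lemma e2_nonneg (n t : ℕ) (f : 𝓢(ℂ, ℂ)) : 0 ≤ e2 n t f :=
  integral_nonneg fun _ => by positivity

lemma rem_Lp (n t : ℕ) (f : 𝓢(ℂ, ℂ)) (p : ℝ) (hp : 2 ≤ p) :
    eLpNorm (rem n t f) (ENNReal.ofReal p) volume ≤
      (ENNReal.ofReal (e1 n t f ^ (p - 2) * e2 n t f)) ^ (1 / p) := by
  have hp0 : 0 < p := by linarith
  rw [eLpNorm_eq_lintegral_rpow_enorm_toReal (by simpa using hp0) ENNReal.ofReal_ne_top,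
    ENNReal.toReal_ofReal hp0.le]
  refine ENNReal.rpow_le_rpow ?_ (by positivity)
  have h1 : ∀ z, ‖rem n t f z‖ₑ ^ p ≤ ENNReal.ofReal (e1 n t f ^ (p - 2) * ‖rem n t f z‖ ^ 2) := by
    intro z
    rw [← ofReal_norm, ENNReal.ofReal_rpow_of_nonneg (norm_nonneg _) hp0.le]
    apply ENNReal.ofReal_le_ofReal
    rcases eq_or_lt_of_le (norm_nonneg (rem n t f z)) with h | h
    · rw [← h, Real.zero_rpow hp0.ne']
      exact mul_nonneg (Real.rpow_nonneg (e1_nonneg n t f) _) (by positivity)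
    · have h2 : ‖rem n t f z‖ ^ p = ‖rem n t f z‖ ^ (p - 2) * ‖rem n t f z‖ ^ 2 := by
        rw [← Real.rpow_natCast, ← Real.rpow_add h]
        congr 1
        push_cast
        ring
      rw [h2]
      exact mul_le_mul_of_nonneg_right (Real.rpow_le_rpow h.le (rem_sup n t f z) (by linarith))
        (by positivity)
  refine (lintegral_mono h1).trans (le_of_eq ?_)
  have h3 : Integrable (fun z => ‖rem n t f z‖ ^ 2) := by
    have h := (rem n t f).memLp 2 (volume : Measure ℂ)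
    exact (memLp_two_iff_integrable_sq_norm h.1).1 h
  rw [← ofReal_integral_eq_lintegral_ofReal (h3.const_mul _) (ae_of_all _ fun z =>
      mul_nonneg (Real.rpow_nonneg (e1_nonneg n t f) _) (by positivity)),
    integral_const_mul, rem_L2]

lemma rem_Lp_tendsto (n : ℕ) (f : 𝓢(ℂ, ℂ)) (p : ℝ) (hp : 2 ≤ p) :
    Tendsto (fun t => eLpNorm (rem n t f) (ENNReal.ofReal p) volume) atTop (𝓝 0) := by
  have hp0 : 0 < p := by linarith
  have h1 : Tendsto (fun t => e1 n t f ^ (p - 2) * e2 n t f) atTop (𝓝 0) := by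
    have h2 : Tendsto (fun t => e1 n t f ^ (p - 2)) atTop (𝓝 ((0 : ℝ) ^ (p - 2))) :=
      (e1_tendsto n f).rpow_const (Or.inr (by linarith))
    have h3 := h2.mul (e2_tendsto n f)
    rwa [mul_zero] at h3
  have h4 : Tendsto (fun t => (ENNReal.ofReal (e1 n t f ^ (p - 2) * e2 n t f)) ^ (1 / p)) atTop
      (𝓝 ((ENNReal.ofReal 0) ^ (1 / p))) :=
    ((ENNReal.continuous_rpow_const.tendsto _).comp (ENNReal.tendsto_ofReal h1))
  rw [ENNReal.ofReal_zero, ENNReal.zero_rpow_of_pos (by positivity)] at h4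
  exact tendsto_of_tendsto_of_tendsto_of_le_of_le tendsto_const_nhds h4 (fun _ => zero_le)
    (fun t => rem_Lp n t f p hp)

/-- passing to the limit -/
theorem mult_bound (n : ℕ) (f : 𝓢(ℂ, ℂ)) (p : ℝ) (hp : 2 ≤ p) (N : ℝ)
    (h : ∀ t, eLpNorm (dzS^[n] (phi n t f)) (ENNReal.ofReal p) volume ≤
      ENNReal.ofReal N * eLpNorm (dzbarS^[n] (phi n t f)) (ENNReal.ofReal p) volume) :
    eLpNorm (𝓕⁻ (fun ξ => ((starRingEnd ℂ) ξ / ξ) ^ n * 𝓕 (f : ℂ → ℂ) ξ))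
      (ENNReal.ofReal p) volume ≤
      ENNReal.ofReal N * eLpNorm f (ENNReal.ofReal p) volume := by
  have h1p : (1 : ℝ≥0∞) ≤ ENNReal.ofReal p := by
    rw [← ENNReal.ofReal_one]
    exact ENNReal.ofReal_le_ofReal (by linarith)
  have hlim : ∀ z, Tendsto (fun t => (dzS^[n] (phi n t f) : 𝓢(ℂ, ℂ)) z) atTop
      (𝓝 (𝓕⁻ (fun ξ => ((starRingEnd ℂ) ξ / ξ) ^ n * 𝓕 (f : ℂ → ℂ) ξ) z)) := by
    intro z
    simp only [dz_phi]
    refine fourierInv_tendsto f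
      (fun t ξ => (((starRingEnd ℂ) ξ / ξ) * ((qq t ξ : ℝ) : ℂ)) ^ n) _ ?_ ?_ ?_ z
    · intro t
      have h2 : Measurable fun ξ : ℂ => (starRingEnd ℂ) ξ / ξ := by
        have h3 : Measurable fun ξ : ℂ => (starRingEnd ℂ) ξ :=
          Complex.continuous_conj.measurable
        exact h3.div measurable_id
      have h4 : Measurable fun ξ : ℂ => ((qq t ξ : ℝ) : ℂ) :=
        ((tg_qq t).1.continuous).measurable
      exact ((h2.mul h4).pow_const n).aestronglyMeasurable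
    · intro t ξ
      rw [norm_pow]
      apply pow_le_one₀ (norm_nonneg _)
      rw [norm_mul, Complex.norm_real, Real.norm_eq_abs, abs_of_nonneg (qq_nonneg t ξ)]
      exact mul_le_one₀ (norm_conj_div ξ) (qq_nonneg t ξ) (qq_le_one t ξ)
    · filter_upwards [ae_ne_zero] with ξ hξ
      have h5 := ((tendsto_const_nhds (x := (starRingEnd ℂ) ξ / ξ)).mul
        ((Complex.continuous_ofReal.tendsto _).comp (qq_tendsto hξ))).pow n
      simp only [Complex.ofReal_one, mul_one] at h5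
      exact h5
  have hF := Lp.eLpNorm_lim_le_liminf_eLpNorm (μ := (volume : Measure ℂ))
    (p := ENNReal.ofReal p)
    (fun t => ((dzS^[n] (phi n t f) : 𝓢(ℂ, ℂ)).continuous).aestronglyMeasurable)
    _ (ae_of_all _ hlim)
  refine hF.trans ?_
  have hb : ∀ t, eLpNorm (dzS^[n] (phi n t f)) (ENNReal.ofReal p) volume ≤
      ENNReal.ofReal N * (eLpNorm f (ENNReal.ofReal p) volume +
        eLpNorm (rem n t f) (ENNReal.ofReal p) volume) := by
    intro t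
    refine (h t).trans ?_
    gcongr
    have e : (dzbarS^[n] (phi n t f) : ℂ → ℂ) = (f : ℂ → ℂ) - (rem n t f : ℂ → ℂ) := by
      funext z
      simp [rem]
    rw [e]
    exact eLpNorm_sub_le f.continuous.aestronglyMeasurable
      (rem n t f).continuous.aestronglyMeasurable h1p
  have hlim2 : Tendsto (fun t => ENNReal.ofReal N * (eLpNorm f (ENNReal.ofReal p) volume +
        eLpNorm (rem n t f) (ENNReal.ofReal p) volume)) atTop
      (𝓝 (ENNReal.ofReal N * (eLpNorm f (ENNReal.ofReal p) volume + 0))) := by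
    apply ENNReal.Tendsto.const_mul _ (Or.inr ENNReal.ofReal_ne_top)
    exact tendsto_const_nhds.add (rem_Lp_tendsto n f p hp)
  rw [add_zero] at hlim2
  rw [← hlim2.liminf_eq]
  exact liminf_le_liminf (Eventually.of_forall hb)

/-- the frozen form of `T^n f` -/
lemma frozen_eq (n : ℕ) (f : 𝓢(ℂ, ℂ)) :
    (fun z : ℂ => ∫ ξ : ℂ,
      Complex.exp (2 * (Real.pi : ℂ) * Complex.I * ((z.re * ξ.re + z.im * ξ.im : ℝ) : ℂ)) *
        ((starRingEnd ℂ ξ / ξ) ^ n *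
          ∫ w : ℂ, Complex.exp (-(2 * (Real.pi : ℂ) * Complex.I *
            ((w.re * ξ.re + w.im * ξ.im : ℝ) : ℂ))) * f w)) =
      𝓕⁻ (fun ξ => ((starRingEnd ℂ) ξ / ξ) ^ n * 𝓕 (f : ℂ → ℂ) ξ) := by
  funext z
  rw [Real.fourierInv_eq']
  congr 1
  funext ξ
  rw [Real.fourier_eq']
  simp only [smul_eq_mul]
  have h1 : ∀ w v : ℂ, inner ℝ w v = w.re * v.re + w.im * v.im := by
    intro w v
    simp only [Complex.inner, Complex.mul_re, Complex.conj_re, Complex.conj_im]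
    ring
  simp only [h1]
  congr 1
  · congr 1
    push_cast
    ring
  · congr 2
    funext w
    congr 2
    push_cast
    ring

end Pool.Agent.Helper68.BA
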