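import Pool.Agent.Helper68.BA.RE
import Pool.Agent.Helper16.BAM.KB
import Pool.Agent.Helper22.BAM.IS
import Pool.Agent.Helper66.BAM.LP
import Pool.Agent.Helper52.BAM.PO

set_option autoImplicit false

/-! Assembly: the estimate on every non-critical angular mode. -/

noncomputable section

namespace Pool.Agent.Helper68.BA

open MeasureTheory Set Filter Topology Complex
open scoped ContDiff ENNReal SchwartzMap

lemma ker_continuous (b : ℝ) (K : ℕ) (β : ℝ) : Continuous (ker b K β) := by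
  unfold ker
  fun_prop

lemma ker_integrable (b : ℝ) (K : ℕ) (β : ℝ) (hβ : 0 < β) : IntegrableOn (ker b K β) (Ioi 0) := by
  unfold ker
  refine integrable_finsetSum _ fun j _ => ?_
  have hj : (0 : ℝ) ≤ j := Nat.cast_nonneg j
  exact (integrableOn_exp_mul_Ioi (by linarith : -(β + j) < 0) 0).const_mul _

lemma ker_shift (b : ℝ) (K : ℕ) (u : ℝ) :
    ker b K (b + 1) u = Real.exp (-u) * ker b K b u := by
  unfold ker
  rw [Finset.mul_sum]
  refine Finset.sum_congr rfl fun j _ => ?_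
  rw [show -(b + 1 + (j : ℝ)) * u = -u + -(b + j) * u by ring, Real.exp_add]
  ring

lemma exp_two_ge : (7 : ℝ) ≤ Real.exp 2 := by
  have h := Real.exp_one_gt_d9
  have : Real.exp 2 = Real.exp 1 ^ 2 := by
    rw [← Real.exp_nat_mul]; norm_num
  rw [this]
  nlinarith

/-- the operator bound -/
lemma op_bound (b : ℝ) (hb : 0 ≤ b) (K : ℕ) (hK : 1 ≤ K) (β ε : ℝ) (hβ : 0 < β)
    (hε : 2 * β + ε = 2 * b + 1)
    (hL : ∫ u in Ioi (0 : ℝ), |ker b K β u| ≤ Real.exp 2 * K - 1)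
    (p : ℝ) (hp : 2 ≤ p) (f : ℝ → ℂ) (hf : Continuous f) (M : ℝ) (hM : ∀ y, ‖f y‖ ≤ M) :
    ∫⁻ y, ENNReal.ofReal (‖Sop (ker b K β) f y‖ ^ p * Real.exp (ε * y)) ≤
      ENNReal.ofReal ((Real.exp 2 * K) ^ (p - 2)) *
        ∫⁻ y, ENNReal.ofReal (‖f y‖ ^ p * Real.exp (ε * y)) := by
  refine interp_Lp (ker b K β) (ker_continuous b K β) (ker_integrable b K β hβ)
    (fun y => Real.exp (ε * y)) (by fun_prop) (fun y => Real.exp_pos _) (Real.exp 2 * K)
    (by linarith) ?_ p hp f hf M hM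
  intro g hg hgc
  have h := Sop_isometry ε β K (rc b K) hβ (by linarith)
    (fun j hj => by
      have := rc_cauchy b hb K j hj
      rw [← this]
      refine Finset.sum_congr rfl fun i _ => ?_
      rw [hε])
    (ker b K β) (fun u => rfl) g hg hgc
  exact ⟨h.1, h.2.le⟩

lemma prof_continuous {ψ : ℂ → ℂ} (h : Continuous ψ) : Continuous (prof ψ) := by
  unfold prof
  fun_prop

lemma eLpNorm_of_mode {k : ℤ} {ψ : ℂ → ℂ} (h : HasMode k ψ) (hc : Continuous ψ)
    (p : ℝ) (hp : 0 < p) :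
    eLpNorm ψ (ENNReal.ofReal p) volume =
      (ENNReal.ofReal Real.pi *
        ∫⁻ y : ℝ, ENNReal.ofReal (‖prof ψ y‖ ^ p * Real.exp y)) ^ (1 / p) := by
  rw [← polar_lintegral h hc p hp,
    eLpNorm_eq_lintegral_rpow_enorm_toReal (by simpa using hp) ENNReal.ofReal_ne_top,
    ENNReal.toReal_ofReal hp.le]
  congr 1
  refine lintegral_congr fun z => ?_
  rw [← ofReal_norm, ENNReal.ofReal_rpow_of_nonneg (norm_nonneg _) hp.le]

/-- from profiles to norms -/
lemma norm_bound {k l : ℤ} {ψ χ : ℂ → ℂ} (hψ : HasMode k ψ) (hψc : Continuous ψ)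
    (hχ : HasMode l χ) (hχc : Continuous χ) (p : ℝ) (hp : 2 ≤ p) (N : ℝ) (hN : 0 < N)
    (h : ∫⁻ y : ℝ, ENNReal.ofReal (‖prof ψ y‖ ^ p * Real.exp y) ≤
      ENNReal.ofReal (N ^ (p - 2)) * ∫⁻ y : ℝ, ENNReal.ofReal (‖prof χ y‖ ^ p * Real.exp y)) :
    eLpNorm ψ (ENNReal.ofReal p) volume ≤
      ENNReal.ofReal (N ^ (1 - 2 / p)) * eLpNorm χ (ENNReal.ofReal p) volume := by
  have hp0 : 0 < p := by linarith
  rw [eLpNorm_of_mode hψ hψc p hp0, eLpNorm_of_mode hχ hχc p hp0]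
  have e1 : ENNReal.ofReal (N ^ (1 - 2 / p)) = ENNReal.ofReal (N ^ (p - 2)) ^ (1 / p) := by
    rw [ENNReal.ofReal_rpow_of_nonneg (by positivity) (by positivity), ← Real.rpow_mul hN.le]
    congr 2
    field_simp
  rw [e1, ← ENNReal.mul_rpow_of_nonneg _ _ (by positivity)]
  refine ENNReal.rpow_le_rpow ?_ (by positivity)
  calc ENNReal.ofReal Real.pi * ∫⁻ y : ℝ, ENNReal.ofReal (‖prof ψ y‖ ^ p * Real.exp y)
      ≤ ENNReal.ofReal Real.pi * (ENNReal.ofReal (N ^ (p - 2)) *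
        ∫⁻ y : ℝ, ENNReal.ofReal (‖prof χ y‖ ^ p * Real.exp y)) := by gcongr
    _ = _ := by ring

theorem mode_bound (n : ℕ) (hn : 1 ≤ n) (k : ℤ) (hk : k ≠ n) (p : ℝ) (hp : 2 ≤ p)
    (φ : 𝓢(ℂ, ℂ)) (hm : HasMode k φ) :
    eLpNorm (BA.dz^[n] φ) (ENNReal.ofReal p) volume ≤
      ENNReal.ofReal ((Real.exp 2 * max 1 (min |(k : ℝ)| n)) ^ (1 - 2 / p)) *
        eLpNorm (BA.dzbar^[n] φ) (ENNReal.ofReal p) volume := by
  obtain ⟨a3, a4⟩ := iter_dzS φ k hm n
  obtain ⟨b3, b4⟩ := iter_dzbarS φ k hm n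
  have a1 : Continuous (BA.dz^[n] φ) := a4 ▸ (dzS^[n] φ).continuous
  have b1 : Continuous (BA.dzbar^[n] φ) := b4 ▸ (dzbarS^[n] φ).continuous
  have hp0 : 0 < p := by linarith
  have h7 := exp_two_ge
  have hn' : (1 : ℝ) ≤ n := by exact_mod_cast hn
  rw [a4] at a3
  rw [b4] at b3
  refine norm_bound a3 a1 b3 b1 p hp _ (by positivity) ?_
  obtain ⟨M, hM⟩ : ∃ M : ℝ, ∀ z, ‖BA.dzbar^[n] φ z‖ ≤ M := by
    obtain ⟨M, -, hM⟩ := (dzbarS^[n] φ).decay 0 0
    refine ⟨M, fun z => ?_⟩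
    have := hM z
    rw [pow_zero, one_mul, norm_iteratedFDeriv_zero, b4] at this
    exact this
  rcases lt_trichotomy k 0 with hk0 | hk0 | hk0
  · -- negative modes
    obtain ⟨m, hm1, rfl⟩ : ∃ m : ℕ, 1 ≤ m ∧ k = -(m : ℤ) := by
      obtain ⟨m, hm⟩ := Int.eq_ofNat_of_zero_le (by omega : 0 ≤ -k)
      exact ⟨m, by omega, by omega⟩
    set b : ℝ := |(m : ℝ) - n| / 2 with hb
    have hb0 : 0 ≤ b := by positivity
    have hK : 1 ≤ min m n := le_min hm1 hn
    have hmax : max 1 (min |((-(m : ℤ) : ℤ) : ℝ)| n) = ((min m n : ℕ) : ℝ) := by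
      push_cast
      rw [abs_neg, abs_of_nonneg (Nat.cast_nonneg m)]
      apply max_eq_right
      exact_mod_cast hK
    rw [hmax]
    have hL : ∫ u in Ioi (0 : ℝ), |ker b (min m n) (b + 1) u| ≤
        Real.exp 2 * ((min m n : ℕ) : ℝ) - 1 := by
      have hK' : (1 : ℝ) ≤ ((min m n : ℕ) : ℝ) := by exact_mod_cast hK
      by_cases hmn : m = n
      · have hb1 : b = 0 := by rw [hb, hmn]; simp
        rw [hb1, zero_add]
        have := ker_L1_zero (min m n) hK
        nlinarith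
      · have hb2 : 1 / 2 ≤ b := by
          rw [hb]
          have h1 : (1 : ℝ) ≤ |(m : ℝ) - n| := by
            have : (1 : ℤ) ≤ |(m : ℤ) - n| := Int.one_le_abs (by omega)
            exact_mod_cast this
          linarith
        refine le_trans ?_ (ker_L1 b hb2 (min m n) hK)
        refine setIntegral_mono_on (ker_integrable b _ (b + 1) (by linarith)).abs
          (ker_integrable b _ b (by linarith)).abs measurableSet_Ioi fun u hu => ?_
        rw [ker_shift, abs_mul, abs_of_pos (Real.exp_pos _)]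
        have h1 : Real.exp (-u) ≤ 1 := Real.exp_le_one_iff.2 (by simpa using le_of_lt hu)
        nlinarith [abs_nonneg (ker b (min m n) b u)]
    have key := op_bound b hb0 (min m n) hK (b + 1) (-1) (by linarith) (by ring) hL p hp
      (fun y => prof (BA.dzbar^[n] φ) (-y)) ((prof_continuous b1).comp continuous_neg)
      M (fun y => hM _)
    have e1 : ∫⁻ y : ℝ, ENNReal.ofReal (‖prof (BA.dz^[n] φ) y‖ ^ p * Real.exp y) =
        ∫⁻ y : ℝ, ENNReal.ofReal (‖prof (BA.dz^[n] φ) (-y)‖ ^ p * Real.exp (-1 * y)) := by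
      rw [← lintegral_neg_eq_self]
      simp only [neg_one_mul]
    have e2 : ∫⁻ y : ℝ, ENNReal.ofReal (‖prof (BA.dzbar^[n] φ) y‖ ^ p * Real.exp y) =
        ∫⁻ y : ℝ, ENNReal.ofReal (‖prof (BA.dzbar^[n] φ) (-y)‖ ^ p * Real.exp (-1 * y)) := by
      rw [← lintegral_neg_eq_self]
      simp only [neg_one_mul]
    rw [e1, e2]
    have e3 : ∀ y : ℝ, prof (BA.dz^[n] φ) (-y) =
        Sop (ker b (min m n) (b + 1)) (fun y => prof (BA.dzbar^[n] φ) (-y)) y := fun y =>
      repr_neg n m φ hm y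
    simp only [e3]
    exact key
  · -- radial functions
    subst hk0
    have e3 : ∀ y : ℝ, prof (BA.dz^[n] φ) y = prof (BA.dzbar^[n] φ) y := fun y =>
      repr_zero n φ hm y
    simp only [e3]
    have hmax : max 1 (min |((0 : ℤ) : ℝ)| n) = (1 : ℝ) := by simp
    rw [hmax, mul_one]
    have h1 : (1 : ℝ≥0∞) ≤ ENNReal.ofReal (Real.exp 2 ^ (p - 2)) := by
      rw [← ENNReal.ofReal_one]
      apply ENNReal.ofReal_le_ofReal
      exact Real.one_le_rpow (by linarith) (by linarith)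
    calc ∫⁻ y : ℝ, ENNReal.ofReal (‖prof (BA.dzbar^[n] φ) y‖ ^ p * Real.exp y)
        = 1 * ∫⁻ y : ℝ, ENNReal.ofReal (‖prof (BA.dzbar^[n] φ) y‖ ^ p * Real.exp y) := by
          rw [one_mul]
      _ ≤ _ := by gcongr
  · -- positive modes
    obtain ⟨m, hm1, rfl⟩ : ∃ m : ℕ, 1 ≤ m ∧ k = (m : ℤ) := by
      obtain ⟨m, hm⟩ := Int.eq_ofNat_of_zero_le (by omega : 0 ≤ k)
      exact ⟨m, by omega, by omega⟩
    have hmn : m ≠ n := by
      rintro rfl
      exact hk rfl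
    set b : ℝ := |(m : ℝ) - n| / 2 with hb
    have hb2 : 1 / 2 ≤ b := by
      rw [hb]
      have h1 : (1 : ℝ) ≤ |(m : ℝ) - n| := by
        have : (1 : ℤ) ≤ |(m : ℤ) - n| := Int.one_le_abs (by omega)
        exact_mod_cast this
      linarith
    have hK : 1 ≤ min m n := le_min hm1 hn
    have hmax : max 1 (min |((m : ℤ) : ℝ)| n) = ((min m n : ℕ) : ℝ) := by
      push_cast
      rw [abs_of_nonneg (Nat.cast_nonneg m)]
      apply max_eq_right
      exact_mod_cast hK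
    rw [hmax]
    have key := op_bound b (by linarith) (min m n) hK b 1 (by linarith) (by ring)
      (ker_L1 b hb2 (min m n) hK) p hp (prof (BA.dzbar^[n] φ)) (prof_continuous b1)
      M (fun y => hM _)
    have e3 : ∀ y : ℝ, prof (BA.dz^[n] φ) y =
        Sop (ker b (min m n) b) (prof (BA.dzbar^[n] φ)) y := fun y =>
      repr_pos n m φ hm y
    simp only [e3]
    simpa only [one_mul] using key

theorem const_le (n : ℕ) (hn : 1 ≤ n) (k : ℤ) (p : ℝ) (hp : 2 ≤ p) :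
    (Real.exp 2 * max 1 (min |(k : ℝ)| n)) ^ (1 - 2 / p) ≤
      (n : ℝ) ^ (1 - 2 / p) * (p - 1) := by
  have hn' : (1 : ℝ) ≤ n := by exact_mod_cast hn
  have hp0 : 0 < p := by linarith
  have he : 0 ≤ 1 - 2 / p := by
    rw [sub_nonneg, div_le_one hp0]; exact hp
  have h1 : max 1 (min |(k : ℝ)| n) ≤ (n : ℝ) := max_le hn' (min_le_right _ _)
  have h2 : Real.exp 2 ^ (1 - 2 / p) ≤ p - 1 := by
    rw [← Real.exp_mul, ← Real.le_log_iff_exp_le (by linarith)]
    have h3 := Real.le_log_one_add_of_nonneg (by linarith : (0 : ℝ) ≤ p - 2)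
    have h4 : 2 * (1 - 2 / p) = 2 * (p - 2) / (p - 2 + 2) := by
      rw [show p - 2 + 2 = p by ring]
      field_simp
    rw [h4]
    refine h3.trans (le_of_eq ?_)
    congr 1
    ring
  rw [Real.mul_rpow (Real.exp_pos _).le (by positivity), mul_comm]
  exact mul_le_mul (Real.rpow_le_rpow (by positivity) h1 he) h2 (by positivity) (by positivity)

end Pool.Agent.Helper68.BA
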