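import Pool.Agent.Helper69.CR.M_A1
import Pool.Agent.Helper69.CR.M_A2
import Pool.Agent.Helper69.CR.M_A3
import Pool.Agent.Helper69.CR.M_AV
import Pool.Agent.Helper69.CR.M_EN
import Pool.Agent.Helper69.CR.M_FI
import Pool.Agent.Helper69.CR.M_IS2
import Pool.Agent.Helper69.CR.M_KD
import Pool.Agent.Helper69.CR.M_KP
import Pool.Agent.Helper69.CR.M_KR
import Pool.Agent.Helper69.CR.M_LY
import Pool.Agent.Helper69.CR.M_NU
import Pool.Agent.Helper69.CR.M_PF
import Pool.Agent.Helper69.CR.M_PR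
import Pool.Agent.Helper69.CR.M_PZ
import Pool.Agent.Helper69.CR.M_SC
import Pool.Agent.Helper69.CR.M_ST
import Pool.Agent.Helper69.CR.M_T4
import Pool.Agent.Helper69.CR.M_TS
import Pool.Agent.Helper69.CR.M_WA
import Pool.Agent.Helper35.QP.Top

/-!
# MP_3dd6d4_an: the one-dimensional estimate with the sharp constant, `2 ≤ p ≤ 4`, all `n`
-/

set_option autoImplicit false

namespace Pool.Agent.Helper68.BA

open Helper69.CR

/-- the one-dimensional estimate of the critical mode, `2 ≤ p ≤ 4` -/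
theorem oneD_four (n : ℕ) (hn : 1 ≤ n) (p : ℝ) (hp : 2 ≤ p) (hp4 : p ≤ 4) : OneD n p := by
  have hIS := hIS2 hKR
  have hK := hKP hPF
  have h4 := hT4 (hA3 Pool.Agent.Helper35.QP.hQ hA1 (hA2 hKR)) hK (hAV hPR) hKD (hTS hLY hIS hK)
    (hSC hPF) hWA
  intro f hf hi
  exact hEN (hST h4 hPZ hIS hWA hPF) hIS n p f hn hp hp4 hf hi

end Pool.Agent.Helper68.BA
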