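import Pool.Agent.Helper5.BAM.C
import Pool.Agent.Helper45.BAM.WI
import Pool.Agent.Helper52.BAM.VA

set_option autoImplicit false

/-! Module RE: representation of `prof (dz^[n] φ)` through `prof (dzbar^[n] φ)` for Schwartz
functions `φ` with an angular mode. -/

noncomputable section

namespace Pool.Agent.Helper68.BA

open MeasureTheory Set Filter Topology Complex
open scoped ContDiff SchwartzMap LineDeriv

/-- the Wirtinger derivative as a Schwartz function -/
def dzS (g : 𝓢(ℂ, ℂ)) : 𝓢(ℂ, ℂ) := (1 / 2 : ℂ) • (∂_{(1 : ℂ)} g - I • ∂_{(I : ℂ)} g)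

/-- the Wirtinger derivative as a Schwartz function -/
def dzbarS (g : 𝓢(ℂ, ℂ)) : 𝓢(ℂ, ℂ) := (1 / 2 : ℂ) • (∂_{(1 : ℂ)} g + I • ∂_{(I : ℂ)} g)

lemma dzS_coe (g : 𝓢(ℂ, ℂ)) : (dzS g : ℂ → ℂ) = BA.dz g := by
  funext z
  simp only [dzS, BA.dz, smul_apply, sub_apply,
    SchwartzMap.lineDerivOp_apply_eq_fderiv, smul_eq_mul]
  ring

lemma dzbarS_coe (g : 𝓢(ℂ, ℂ)) : (dzbarS g : ℂ → ℂ) = BA.dzbar g := by
  funext z
  simp only [dzbarS, BA.dzbar, smul_apply, add_apply,
    SchwartzMap.lineDerivOp_apply_eq_fderiv, smul_eq_mul]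
  ring

lemma hasMode_dzS {l : ℤ} {g : 𝓢(ℂ, ℂ)} (h : HasMode l g) : HasMode (l - 1) (dzS g) := by
  rw [dzS_coe]
  exact hasMode_dz h (g.smooth _)

lemma hasMode_dzbarS {l : ℤ} {g : 𝓢(ℂ, ℂ)} (h : HasMode l g) : HasMode (l + 1) (dzbarS g) := by
  rw [dzbarS_coe]
  exact hasMode_dzbar h (g.smooth _)

/-- generators of the space `EE a` -/
def gens (a : ℝ) : Set (ℝ → ℂ) :=
  {F | ∃ (s : ℝ) (l : ℤ) (ψ : 𝓢(ℂ, ℂ)), HasMode l ψ ∧
    a ≤ s + |(l : ℝ)| / 2 ∧ F = fun y => (Real.exp (s * y) : ℂ) * prof ψ y}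

/-- a space of smooth profiles, closed under differentiation -/
def EE (a : ℝ) : Submodule ℂ (ℝ → ℂ) := Submodule.span ℂ (gens a)

lemma gen_mem {a s : ℝ} {l : ℤ} (ψ : 𝓢(ℂ, ℂ)) (h3 : HasMode l ψ) (h4 : a ≤ s + |(l : ℝ)| / 2) :
    (fun y => (Real.exp (s * y) : ℂ) * prof ψ y) ∈ EE a :=
  Submodule.subset_span ⟨s, l, ψ, h3, h4, rfl⟩

lemma gen_hasDerivAt {s : ℝ} {l : ℤ} {ψ : ℂ → ℂ} (h1 : ContDiff ℝ ∞ ψ) (h3 : HasMode l ψ)
    (y : ℝ) :
    HasDerivAt (fun y => (Real.exp (s * y) : ℂ) * prof ψ y)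
      ((Real.exp ((s + 1 / 2) * y) : ℂ) * prof (BA.dz ψ) y +
        ((s - l / 2 : ℝ) : ℂ) * ((Real.exp (s * y) : ℂ) * prof ψ y)) y := by
  have e1 : HasDerivAt (fun y : ℝ => (Real.exp (s * y) : ℂ)) (s * Real.exp (s * y) : ℂ) y := by
    have : HasDerivAt (fun y : ℝ => Real.exp (s * y)) (Real.exp (s * y) * (s * 1)) y :=
      ((hasDerivAt_id y).const_mul s).exp
    have h := this.ofReal_comp
    convert h using 1
    push_cast; ring
  have e2 := prof_hasDerivAt_dz h3 h1 y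
  have e3 := e1.mul e2
  refine HasDerivAt.congr_deriv e3 ?_
  have e4 : (Real.exp ((s + 1 / 2) * y) : ℂ) = Real.exp (s * y) * Real.exp (y / 2) := by
    rw [← Complex.ofReal_mul, ← Real.exp_add]
    congr 2
    ring
  rw [e4]
  push_cast
  ring

lemma gen_hasDerivAt' {s : ℝ} {l : ℤ} {ψ : ℂ → ℂ} (h1 : ContDiff ℝ ∞ ψ) (h3 : HasMode l ψ)
    (y : ℝ) :
    HasDerivAt (fun y => (Real.exp (s * y) : ℂ) * prof ψ y)
      ((Real.exp ((s + 1 / 2) * y) : ℂ) * prof (BA.dzbar ψ) y +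
        ((s + l / 2 : ℝ) : ℂ) * ((Real.exp (s * y) : ℂ) * prof ψ y)) y := by
  have e1 : HasDerivAt (fun y : ℝ => (Real.exp (s * y) : ℂ)) (s * Real.exp (s * y) : ℂ) y := by
    have : HasDerivAt (fun y : ℝ => Real.exp (s * y)) (Real.exp (s * y) * (s * 1)) y :=
      ((hasDerivAt_id y).const_mul s).exp
    have h := this.ofReal_comp
    convert h using 1
    push_cast; ring
  have e2 := prof_hasDerivAt_dzbar h3 h1 y
  have e3 := e1.mul e2
  refine HasDerivAt.congr_deriv e3 ?_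
  have e4 : (Real.exp ((s + 1 / 2) * y) : ℂ) = Real.exp (s * y) * Real.exp (y / 2) := by
    rw [← Complex.ofReal_mul, ← Real.exp_add]
    congr 2
    ring
  rw [e4]
  push_cast
  ring

/-- basic properties of the elements of `EE a` -/
lemma EE_props {a : ℝ} {F : ℝ → ℂ} (hF : F ∈ EE a) :
    Differentiable ℝ F ∧ deriv F ∈ EE a ∧ (∀ β : ℝ, a ≤ β → ∃ C : ℝ, 0 ≤ C ∧
      ∀ y, y ≤ 0 → ‖F y‖ ≤ C * Real.exp (a * y)) ∧
      ∀ β : ℝ, ∃ C : ℝ, 0 ≤ C ∧ ∀ y, 0 ≤ y → ‖F y‖ ≤ C * Real.exp (-β * y) := by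
  unfold EE at hF
  induction hF using Submodule.span_induction with
  | mem F hF =>
    obtain ⟨s, l, ψ, h3, h4, rfl⟩ := hF
    have h1 : ContDiff ℝ ∞ ψ := ψ.smooth _
    refine ⟨fun y => (gen_hasDerivAt h1 h3 y).differentiableAt, ?_, ?_, ?_⟩
    · have : deriv (fun y => (Real.exp (s * y) : ℂ) * prof ψ y) =
          (fun y => (Real.exp ((s + 1 / 2) * y) : ℂ) * prof (dzS ψ) y) +
            ((s - l / 2 : ℝ) : ℂ) • (fun y => (Real.exp (s * y) : ℂ) * prof ψ y) := by
        funext y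
        rw [(gen_hasDerivAt h1 h3 y).deriv, dzS_coe]
        rfl
      rw [this]
      refine Submodule.add_mem _ ?_ (Submodule.smul_mem _ _ (gen_mem ψ h3 h4))
      refine gen_mem (l := l - 1) (dzS ψ) (hasMode_dzS h3) ?_
      have : |(l : ℝ)| ≤ |((l - 1 : ℤ) : ℝ)| + 1 := by
        have := abs_sub_abs_le_abs_sub (l : ℝ) ((l : ℝ) - 1)
        push_cast
        have e : |(l : ℝ) - (l - 1)| = 1 := by
          rw [show (l : ℝ) - (l - 1) = 1 by ring, abs_one]
        linarith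
      linarith
    · intro β _
      obtain ⟨C0, hC0⟩ := prof_vanish h3 h1
      refine ⟨max C0 0, by positivity, fun y hy => ?_⟩
      rw [norm_mul, Complex.norm_real, Real.norm_eq_abs, abs_of_pos (Real.exp_pos _)]
      have h5 := hC0 y hy
      have h6 : Real.exp (s * y) * Real.exp (|(l : ℝ)| * y / 2) ≤ Real.exp (a * y) := by
        rw [← Real.exp_add]
        apply Real.exp_le_exp.2
        nlinarith
      calc Real.exp (s * y) * ‖prof ψ y‖
          ≤ Real.exp (s * y) * (max C0 0 * Real.exp (|(l : ℝ)| * y / 2)) := by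
            apply mul_le_mul_of_nonneg_left _ (Real.exp_pos _).le
            refine h5.trans ?_
            exact mul_le_mul_of_nonneg_right (le_max_left _ _) (Real.exp_pos _).le
        _ = max C0 0 * (Real.exp (s * y) * Real.exp (|(l : ℝ)| * y / 2)) := by ring
        _ ≤ max C0 0 * Real.exp (a * y) :=
            mul_le_mul_of_nonneg_left h6 (le_max_right _ _)
    · intro β
      obtain ⟨N, hN⟩ := exists_nat_ge (2 * (s + β))
      obtain ⟨C, hC0, hC⟩ := ψ.decay N 0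
      refine ⟨C, hC0.le, fun y hy => ?_⟩
      rw [norm_mul, Complex.norm_real, Real.norm_eq_abs, abs_of_pos (Real.exp_pos _)]
      have h5 := hC (((Real.exp (y / 2) : ℝ) : ℂ))
      rw [norm_iteratedFDeriv_zero, Complex.norm_real, Real.norm_eq_abs,
        abs_of_pos (Real.exp_pos _), ← Real.exp_nat_mul] at h5
      have h6 : Real.exp (s * y) * Real.exp (β * y) ≤ Real.exp (N * (y / 2)) := by
        rw [← Real.exp_add]
        apply Real.exp_le_exp.2
        nlinarith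
      have h7 : Real.exp (-β * y) * Real.exp (β * y) = 1 := by
        rw [← Real.exp_add, show -β * y + β * y = 0 by ring, Real.exp_zero]
      calc Real.exp (s * y) * ‖prof ψ y‖
          = Real.exp (-β * y) * ((Real.exp (s * y) * Real.exp (β * y)) * ‖prof ψ y‖) := by
            linear_combination (-(Real.exp (s * y) * ‖prof ψ y‖)) * h7
        _ ≤ Real.exp (-β * y) * (Real.exp (N * (y / 2)) * ‖prof ψ y‖) := by gcongr
        _ ≤ Real.exp (-β * y) * C := by
            apply mul_le_mul_of_nonneg_left h5 (Real.exp_pos _).le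
        _ = C * Real.exp (-β * y) := mul_comm _ _
  | zero =>
    refine ⟨differentiable_const 0, ?_, fun β _ => ⟨0, le_rfl, fun y _ => by simp⟩,
      fun β => ⟨0, le_rfl, fun y _ => by simp⟩⟩
    have : deriv (0 : ℝ → ℂ) = 0 := by
      funext y
      exact deriv_const y (0 : ℂ)
    rw [this]
    exact Submodule.zero_mem _
  | add F G hF hG hF' hG' =>
    obtain ⟨a1, a2, a3, a4⟩ := hF'
    obtain ⟨b1, b2, b3, b4⟩ := hG'
    refine ⟨a1.add b1, ?_, fun β hβ => ?_, fun β => ?_⟩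
    · have : deriv (F + G) = deriv F + deriv G := by
        funext y
        exact deriv_add (a1 y) (b1 y)
      rw [this]
      exact Submodule.add_mem _ a2 b2
    · obtain ⟨C1, c0, a3⟩ := a3 β hβ
      obtain ⟨C2, d0, b3⟩ := b3 β hβ
      refine ⟨C1 + C2, by positivity, fun y hy => ?_⟩
      rw [Pi.add_apply, add_mul]
      exact (norm_add_le _ _).trans (add_le_add (a3 y hy) (b3 y hy))
    · obtain ⟨C1, c0, a3⟩ := a4 β
      obtain ⟨C2, d0, b3⟩ := b4 β
      refine ⟨C1 + C2, by positivity, fun y hy => ?_⟩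
      rw [Pi.add_apply, add_mul]
      exact (norm_add_le _ _).trans (add_le_add (a3 y hy) (b3 y hy))
  | smul c F hF hF' =>
    obtain ⟨a1, a2, a3, a4⟩ := hF'
    refine ⟨a1.const_smul c, ?_, fun β hβ => ?_, fun β => ?_⟩
    · have : deriv (c • F) = c • deriv F := by
        funext y
        exact deriv_const_smul c (a1 y)
      rw [this]
      exact Submodule.smul_mem _ _ a2
    · obtain ⟨C1, c0, a3⟩ := a3 β hβ
      refine ⟨‖c‖ * C1, by positivity, fun y hy => ?_⟩
      rw [Pi.smul_apply, norm_smul, mul_assoc]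
      exact mul_le_mul_of_nonneg_left (a3 y hy) (norm_nonneg _)
    · obtain ⟨C1, c0, a3⟩ := a4 β
      refine ⟨‖c‖ * C1, by positivity, fun y hy => ?_⟩
      rw [Pi.smul_apply, norm_smul, mul_assoc]
      exact mul_le_mul_of_nonneg_left (a3 y hy) (norm_nonneg _)

/-- global bound -/
lemma EE_bound {a : ℝ} {F : ℝ → ℂ} (hF : F ∈ EE a) : ∃ C : ℝ, 0 ≤ C ∧
    ∀ y, ‖F y‖ ≤ C * Real.exp (a * y) := by
  obtain ⟨C1, c1, h1⟩ := (EE_props hF).2.2.1 a le_rfl
  obtain ⟨C2, c2, h2⟩ := (EE_props hF).2.2.2 (-a)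
  refine ⟨C1 + C2, by positivity, fun y => ?_⟩
  rcases le_total y 0 with hy | hy
  · refine (h1 y hy).trans ?_
    apply mul_le_mul_of_nonneg_right (by linarith) (Real.exp_pos _).le
  · refine (h2 y hy).trans ?_
    rw [neg_neg]
    apply mul_le_mul_of_nonneg_right (by linarith) (Real.exp_pos _).le

/-- differentiation as an endomorphism of `EE a` -/
def DD (a : ℝ) : EE a →ₗ[ℂ] EE a where
  toFun F := ⟨deriv F.1, (EE_props F.2).2.1⟩
  map_add' F G := by
    ext y
    exact deriv_add ((EE_props F.2).1 y) ((EE_props G.2).1 y)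
  map_smul' c F := by
    ext y
    exact deriv_const_smul c ((EE_props F.2).1 y)

lemma DD_apply (a : ℝ) (F : EE a) (y : ℝ) : (DD a F : ℝ → ℂ) y = deriv (F : ℝ → ℂ) y := rfl

lemma EE_hasDerivAt {a : ℝ} (F : EE a) (y : ℝ) :
    HasDerivAt (F : ℝ → ℂ) ((DD a F : ℝ → ℂ) y) y :=
  ((EE_props F.2).1 y).hasDerivAt

lemma EE_continuous {a : ℝ} (F : EE a) : Continuous (F : ℝ → ℂ) :=
  (EE_props F.2).1.continuous

/-- bound to the right of `y` -/
lemma EE_right {a : ℝ} (F : EE a) (β y : ℝ) : ∃ C : ℝ, ∀ u : ℝ, 0 ≤ u →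
    ‖(F : ℝ → ℂ) (y + u)‖ ≤ C * Real.exp (-β * u) := by
  obtain ⟨C1, c1, h1⟩ := (EE_props F.2).2.2.2 β
  obtain ⟨C2, c2, h2⟩ := EE_bound F.2
  refine ⟨C1 * Real.exp (-β * y) + C2 * (Real.exp (|a| * |y|) * Real.exp (|β| * |y|)),
    fun u hu => ?_⟩
  rcases le_total 0 (y + u) with h | h
  · calc ‖(F : ℝ → ℂ) (y + u)‖ ≤ C1 * Real.exp (-β * (y + u)) := h1 _ h
      _ = C1 * Real.exp (-β * y) * Real.exp (-β * u) := by
          rw [mul_assoc, ← Real.exp_add]; congr 2; ring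
      _ ≤ _ := by
          apply mul_le_mul_of_nonneg_right _ (Real.exp_pos _).le
          have : 0 ≤ C2 * (Real.exp (|a| * |y|) * Real.exp (|β| * |y|)) := by positivity
          linarith
  · have hu' : u ≤ |y| := by
      have := neg_abs_le y
      linarith
    have hyu : |y + u| ≤ |y| := by
      rw [abs_of_nonpos h]
      have := neg_abs_le y
      linarith
    have h3 : Real.exp (a * (y + u)) ≤ Real.exp (|a| * |y|) := by
      apply Real.exp_le_exp.2
      refine (le_abs_self _).trans ?_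
      rw [abs_mul]
      gcongr
    have h4 : 1 ≤ Real.exp (|β| * |y|) * Real.exp (-β * u) := by
      rw [← Real.exp_add]
      apply Real.one_le_exp
      have : β * u ≤ |β| * |y| := by
        refine (le_abs_self _).trans ?_
        rw [abs_mul, abs_of_nonneg hu]
        gcongr
      linarith
    calc ‖(F : ℝ → ℂ) (y + u)‖ ≤ C2 * Real.exp (a * (y + u)) := h2 _
      _ ≤ C2 * Real.exp (|a| * |y|) * 1 := by rw [mul_one]; gcongr
      _ ≤ C2 * Real.exp (|a| * |y|) * (Real.exp (|β| * |y|) * Real.exp (-β * u)) := by gcongr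
      _ = C2 * (Real.exp (|a| * |y|) * Real.exp (|β| * |y|)) * Real.exp (-β * u) := by ring
      _ ≤ _ := by
          apply mul_le_mul_of_nonneg_right _ (Real.exp_pos _).le
          have : 0 ≤ C1 * Real.exp (-β * y) := by positivity
          linarith

/-- integrability to the right -/
lemma EE_integrable_pos {a : ℝ} (F : EE a) (β y : ℝ) :
    IntegrableOn (fun u : ℝ => (Real.exp (-β * u) : ℂ) * (F : ℝ → ℂ) (y + u)) (Ioi 0) := by
  obtain ⟨C, hC⟩ := EE_right F (1 - β) y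
  have hc : Continuous (fun u : ℝ => (Real.exp (-β * u) : ℂ) * (F : ℝ → ℂ) (y + u)) := by
    have h1 := EE_continuous F
    have h2 : Continuous (fun u : ℝ => (Real.exp (-β * u) : ℂ)) :=
      Complex.continuous_ofReal.comp (Real.continuous_exp.comp (continuous_const.mul continuous_id))
    exact h2.mul (h1.comp (continuous_const.add continuous_id))
  have h1 : IntegrableOn (fun u : ℝ => C * Real.exp (-1 * u)) (Ioi 0) :=
    (integrableOn_exp_mul_Ioi (by norm_num) 0).const_mul _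
  refine h1.mono' hc.aestronglyMeasurable.restrict ?_
  refine (ae_restrict_mem measurableSet_Ioi).mono fun u hu => ?_
  rw [norm_mul, Complex.norm_real, Real.norm_eq_abs, abs_of_pos (Real.exp_pos _)]
  calc Real.exp (-β * u) * ‖(F : ℝ → ℂ) (y + u)‖
      ≤ Real.exp (-β * u) * (C * Real.exp (-(1 - β) * u)) :=
        mul_le_mul_of_nonneg_left (hC u (le_of_lt hu)) (Real.exp_pos _).le
    _ = C * (Real.exp (-β * u) * Real.exp (-(1 - β) * u)) := by ring
    _ = C * Real.exp (-1 * u) := by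
        rw [← Real.exp_add]
        congr 2
        ring

/-- integrability to the left -/
lemma EE_integrable_neg {a : ℝ} (F : EE a) (β y : ℝ) (h : 0 < β + a) :
    IntegrableOn (fun u : ℝ => (Real.exp (-β * u) : ℂ) * (F : ℝ → ℂ) (y - u)) (Ioi 0) := by
  obtain ⟨C, hC0, hC⟩ := EE_bound F.2
  have hc : Continuous (fun u : ℝ => (Real.exp (-β * u) : ℂ) * (F : ℝ → ℂ) (y - u)) := by
    have h1 := EE_continuous F
    have h2 : Continuous (fun u : ℝ => (Real.exp (-β * u) : ℂ)) :=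
      Complex.continuous_ofReal.comp (Real.continuous_exp.comp (continuous_const.mul continuous_id))
    exact h2.mul (h1.comp (continuous_const.sub continuous_id))
  have h1 : IntegrableOn (fun u : ℝ => (C * Real.exp (a * y)) * Real.exp (-(β + a) * u))
      (Ioi 0) := (integrableOn_exp_mul_Ioi (by linarith) 0).const_mul _
  refine h1.mono' hc.aestronglyMeasurable.restrict (ae_of_all _ fun u => ?_)
  rw [norm_mul, Complex.norm_real, Real.norm_eq_abs, abs_of_pos (Real.exp_pos _)]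
  calc Real.exp (-β * u) * ‖(F : ℝ → ℂ) (y - u)‖
      ≤ Real.exp (-β * u) * (C * Real.exp (a * (y - u))) :=
        mul_le_mul_of_nonneg_left (hC _) (Real.exp_pos _).le
    _ = C * (Real.exp (-β * u) * Real.exp (a * (y - u))) := by ring
    _ = C * (Real.exp (a * y) * Real.exp (-(β + a) * u)) := by
        rw [← Real.exp_add, ← Real.exp_add]
        congr 2
        ring
    _ = _ := by ring

/-- solution of `P' - βP = f` vanishing at `+∞` -/
lemma solve_pos {a : ℝ} (P f : EE a) (β : ℝ) (h : DD a P - (β : ℝ) • P = f) (y : ℝ) :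
    ∫ u in Ioi (0 : ℝ), (Real.exp (-β * u) : ℂ) * (f : ℝ → ℂ) (y + u) = -(P : ℝ → ℂ) y := by
  have hf : ∀ x, (f : ℝ → ℂ) x = (DD a P : ℝ → ℂ) x - β * (P : ℝ → ℂ) x := by
    intro x
    rw [← h]
    simp
  have hd : ∀ u : ℝ, HasDerivAt (fun u : ℝ => (Real.exp (-β * u) : ℂ) * (P : ℝ → ℂ) (y + u))
      ((Real.exp (-β * u) : ℂ) * (f : ℝ → ℂ) (y + u)) u := by
    intro u
    have e1 : HasDerivAt (fun u : ℝ => (Real.exp (-β * u) : ℂ)) (-β * Real.exp (-β * u) : ℂ) u := by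
      have : HasDerivAt (fun u : ℝ => Real.exp (-β * u)) (Real.exp (-β * u) * (-β * 1)) u :=
        ((hasDerivAt_id u).const_mul (-β)).exp
      refine HasDerivAt.congr_deriv this.ofReal_comp ?_
      push_cast; ring
    have e2 : HasDerivAt (fun u : ℝ => (P : ℝ → ℂ) (y + u)) ((DD a P : ℝ → ℂ) (y + u)) u := by
      exact (EE_hasDerivAt P (y + u)).comp_const_add y u
    refine HasDerivAt.congr_deriv (e1.mul e2) ?_
    rw [hf]
    ring
  have ht : Tendsto (fun u : ℝ => (Real.exp (-β * u) : ℂ) * (P : ℝ → ℂ) (y + u)) atTop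
      (𝓝 0) := by
    obtain ⟨C, hC⟩ := EE_right P (1 - β) y
    have h1 : Tendsto (fun u : ℝ => C * Real.exp (-u)) atTop (𝓝 (C * 0)) :=
      Real.tendsto_exp_neg_atTop_nhds_zero.const_mul C
    rw [mul_zero] at h1
    refine squeeze_zero_norm' ?_ h1
    filter_upwards [eventually_ge_atTop 0] with u hu
    rw [norm_mul, Complex.norm_real, Real.norm_eq_abs, abs_of_pos (Real.exp_pos _)]
    calc Real.exp (-β * u) * ‖(P : ℝ → ℂ) (y + u)‖
        ≤ Real.exp (-β * u) * (C * Real.exp (-(1 - β) * u)) :=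
          mul_le_mul_of_nonneg_left (hC u hu) (Real.exp_pos _).le
      _ = C * (Real.exp (-β * u) * Real.exp (-(1 - β) * u)) := by ring
      _ = C * Real.exp (-u) := by
          rw [← Real.exp_add]
          congr 2
          ring
  have := integral_Ioi_of_hasDerivAt_of_tendsto' (a := 0) (fun x _ => hd x)
    (EE_integrable_pos f β y) ht
  rw [this]
  simp

/-- solution of `P' + βP = f` with moderate growth at `-∞` -/
lemma solve_neg {a : ℝ} (P f : EE a) (β : ℝ) (hβ : 0 < β + a) (h : DD a P + (β : ℝ) • P = f)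
    (y : ℝ) :
    ∫ u in Ioi (0 : ℝ), (Real.exp (-β * u) : ℂ) * (f : ℝ → ℂ) (y - u) = (P : ℝ → ℂ) y := by
  have hf : ∀ x, (f : ℝ → ℂ) x = (DD a P : ℝ → ℂ) x + β * (P : ℝ → ℂ) x := by
    intro x
    rw [← h]
    simp
  have hd : ∀ u : ℝ, HasDerivAt (fun u : ℝ => -((Real.exp (-β * u) : ℂ) * (P : ℝ → ℂ) (y - u)))
      ((Real.exp (-β * u) : ℂ) * (f : ℝ → ℂ) (y - u)) u := by
    intro u
    have e1 : HasDerivAt (fun u : ℝ => (Real.exp (-β * u) : ℂ)) (-β * Real.exp (-β * u) : ℂ) u := by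
      have : HasDerivAt (fun u : ℝ => Real.exp (-β * u)) (Real.exp (-β * u) * (-β * 1)) u :=
        ((hasDerivAt_id u).const_mul (-β)).exp
      refine HasDerivAt.congr_deriv this.ofReal_comp ?_
      push_cast; ring
    have e2 : HasDerivAt (fun u : ℝ => (P : ℝ → ℂ) (y - u)) (-(DD a P : ℝ → ℂ) (y - u)) u := by
      exact (EE_hasDerivAt P (y - u)).comp_const_sub y u
    refine HasDerivAt.congr_deriv (e1.mul e2).neg ?_
    rw [hf]
    ring
  have ht : Tendsto (fun u : ℝ => -((Real.exp (-β * u) : ℂ) * (P : ℝ → ℂ) (y - u))) atTop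
      (𝓝 0) := by
    obtain ⟨C, hC0, hC⟩ := EE_bound P.2
    have h1 : Tendsto (fun u : ℝ => (C * Real.exp (a * y)) * Real.exp (-((β + a) * u))) atTop
        (𝓝 ((C * Real.exp (a * y)) * 0)) := by
      apply Tendsto.const_mul
      exact Real.tendsto_exp_neg_atTop_nhds_zero.comp (tendsto_id.const_mul_atTop hβ)
    rw [mul_zero] at h1
    refine squeeze_zero_norm (fun u => ?_) h1
    rw [norm_neg, norm_mul, Complex.norm_real, Real.norm_eq_abs, abs_of_pos (Real.exp_pos _)]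
    calc Real.exp (-β * u) * ‖(P : ℝ → ℂ) (y - u)‖
        ≤ Real.exp (-β * u) * (C * Real.exp (a * (y - u))) :=
          mul_le_mul_of_nonneg_left (hC _) (Real.exp_pos _).le
      _ = C * (Real.exp (-β * u) * Real.exp (a * (y - u))) := by ring
      _ = C * (Real.exp (a * y) * Real.exp (-((β + a) * u))) := by
          rw [← Real.exp_add, ← Real.exp_add]
          congr 2
          ring
      _ = _ := by ring
  have := integral_Ioi_of_hasDerivAt_of_tendsto' (a := 0) (fun x _ => hd x)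
    (EE_integrable_neg f β y hβ) ht
  rw [this]
  simp

/-! ### the iterated Wirtinger derivatives -/

lemma iter_dzS (φ : 𝓢(ℂ, ℂ)) (k : ℤ) (h3 : HasMode k φ) (j : ℕ) :
    HasMode (k - j) (dzS^[j] φ) ∧ (dzS^[j] φ : ℂ → ℂ) = BA.dz^[j] φ := by
  induction j with
  | zero => simpa using h3
  | succ j ih =>
    rw [Function.iterate_succ_apply', Function.iterate_succ_apply']
    refine ⟨?_, ?_⟩
    · have := hasMode_dzS ih.1
      rw [show (k - (j + 1 : ℕ) : ℤ) = k - j - 1 by push_cast; ring]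
      exact this
    · rw [dzS_coe, ih.2]

lemma iter_dzbarS (φ : 𝓢(ℂ, ℂ)) (k : ℤ) (h3 : HasMode k φ) (j : ℕ) :
    HasMode (k + j) (dzbarS^[j] φ) ∧ (dzbarS^[j] φ : ℂ → ℂ) = BA.dzbar^[j] φ := by
  induction j with
  | zero => simpa using h3
  | succ j ih =>
    rw [Function.iterate_succ_apply', Function.iterate_succ_apply']
    refine ⟨?_, ?_⟩
    · have := hasMode_dzbarS ih.1
      rw [show (k + (j + 1 : ℕ) : ℤ) = k + j + 1 by push_cast; ring]
      exact this
    · rw [dzbarS_coe, ih.2]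

open Polynomial in
lemma aeval_add_C {a : ℝ} (D : EE a →ₗ[ℂ] EE a) (c : ℝ) (v : EE a) :
    (aeval D (X + C c : ℝ[X])) v = D v + c • v := by
  rw [map_add, aeval_X, aeval_C, LinearMap.add_apply, Module.algebraMap_end_apply]

open Polynomial in
lemma aeval_sub_C {a : ℝ} (D : EE a →ₗ[ℂ] EE a) (c : ℝ) (v : EE a) :
    (aeval D (X - C c : ℝ[X])) v = D v - c • v := by
  rw [map_sub, aeval_X, aeval_C, LinearMap.sub_apply, Module.algebraMap_end_apply]

section

variable (n : ℕ) (k : ℤ) (φ : 𝓢(ℂ, ℂ)) (h3 : HasMode k φ)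

/-- the profile of `dz^[j] φ` with its weight -/
def gz (j : ℕ) : EE ((|(k : ℝ)| - n) / 2) :=
  ⟨fun y => (Real.exp (-((n : ℝ) - j) / 2 * y) : ℂ) * prof (dzS^[j] φ) y, by
    refine gen_mem (dzS^[j] φ) (iter_dzS φ k h3 j).1 ?_
    have h5 := abs_sub_abs_le_abs_sub (k : ℝ) ((k : ℝ) - j)
    have e : |(k : ℝ) - (k - j)| = j := by
      rw [show (k : ℝ) - (k - j) = j by ring, abs_of_nonneg (Nat.cast_nonneg j)]
    push_cast
    linarith⟩

/-- the profile of `dzbar^[j] φ` with its weight -/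
def gb (j : ℕ) : EE ((|(k : ℝ)| - n) / 2) :=
  ⟨fun y => (Real.exp (-((n : ℝ) - j) / 2 * y) : ℂ) * prof (dzbarS^[j] φ) y, by
    refine gen_mem (dzbarS^[j] φ) (iter_dzbarS φ k h3 j).1 ?_
    have h5 := abs_sub_abs_le_abs_sub (k : ℝ) ((k : ℝ) + j)
    have e : |(k : ℝ) - (k + j)| = j := by
      rw [show (k : ℝ) - (k + j) = -j by ring, abs_neg, abs_of_nonneg (Nat.cast_nonneg j)]
    push_cast
    linarith⟩

lemma gz_succ (j : ℕ) : gz n k φ h3 (j + 1) =
    DD _ (gz n k φ h3 j) + (((n : ℝ) + k) / 2 - j) • gz n k φ h3 j := by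
  ext y
  have e := gen_hasDerivAt (s := -((n : ℝ) - j) / 2) ((dzS^[j] φ).smooth _)
    (iter_dzS φ k h3 j).1 y
  have e2 : (DD _ (gz n k φ h3 j) : ℝ → ℂ) y = _ := e.deriv
  simp only [Submodule.coe_add, Submodule.coe_smul_of_tower, Pi.add_apply, Pi.smul_apply]
  rw [e2]
  simp only [gz, Function.iterate_succ_apply', dzS_coe]
  rw [Complex.real_smul]
  have e3 : (-((n : ℝ) - ((j + 1 : ℕ) : ℝ)) / 2 * y) = (-((n : ℝ) - j) / 2 + 1 / 2) * y := by
    push_cast; ring
  rw [e3]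
  push_cast
  ring

lemma gb_succ (j : ℕ) : gb n k φ h3 (j + 1) =
    DD _ (gb n k φ h3 j) + (((n : ℝ) - k) / 2 - j) • gb n k φ h3 j := by
  ext y
  have e := gen_hasDerivAt' (s := -((n : ℝ) - j) / 2) ((dzbarS^[j] φ).smooth _)
    (iter_dzbarS φ k h3 j).1 y
  have e2 : (DD _ (gb n k φ h3 j) : ℝ → ℂ) y = _ := e.deriv
  simp only [Submodule.coe_add, Submodule.coe_smul_of_tower, Pi.add_apply, Pi.smul_apply]
  rw [e2]
  simp only [gb, Function.iterate_succ_apply', dzbarS_coe]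
  rw [Complex.real_smul]
  have e3 : (-((n : ℝ) - ((j + 1 : ℕ) : ℝ)) / 2 * y) = (-((n : ℝ) - j) / 2 + 1 / 2) * y := by
    push_cast; ring
  rw [e3]
  push_cast
  ring

open Polynomial in
lemma gz_eq (j : ℕ) : gz n k φ h3 j =
    (aeval (DD ((|(k : ℝ)| - n) / 2))
      (∏ i ∈ Finset.range j, (X + C (((n : ℝ) + k) / 2 - i)))) (gz n k φ h3 0) := by
  induction j with
  | zero => simp
  | succ j ih =>
    rw [gz_succ, Finset.prod_range_succ, mul_comm, aeval_mul, Module.End.mul_apply, ← ih,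
      aeval_add_C]

open Polynomial in
lemma gb_eq (j : ℕ) : gb n k φ h3 j =
    (aeval (DD ((|(k : ℝ)| - n) / 2))
      (∏ i ∈ Finset.range j, (X + C (((n : ℝ) - k) / 2 - i)))) (gz n k φ h3 0) := by
  induction j with
  | zero => simp [gz, gb]
  | succ j ih =>
    rw [gb_succ, Finset.prod_range_succ, mul_comm, aeval_mul, Module.End.mul_apply, ← ih,
      aeval_add_C]

lemma gz_n : ((gz n k φ h3 n : EE _) : ℝ → ℂ) = prof (BA.dz^[n] φ) := by
  funext y
  rw [← (iter_dzS φ k h3 n).2]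
  simp [gz]

lemma gb_n : ((gb n k φ h3 n : EE _) : ℝ → ℂ) = prof (BA.dzbar^[n] φ) := by
  funext y
  rw [← (iter_dzbarS φ k h3 n).2]
  simp [gb]

end

/-! ### cancelling the common factors -/

open Polynomial in
/-- the two products for `k ≥ 0` have a common factor -/
lemma exists_common (n k : ℕ) : ∃ Q : ℝ[X],
    (∏ i ∈ Finset.range n, (X + C (((n : ℝ) + k) / 2 - i)) : ℝ[X]) =
      (∏ i ∈ Finset.range (min k n), (X + C (|(k : ℝ) - n| / 2 + 1 + i))) * Q ∧
    (∏ i ∈ Finset.range n, (X + C (((n : ℝ) - k) / 2 - i)) : ℝ[X]) =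
      (∏ i ∈ Finset.range (min k n), (X - C (|(k : ℝ) - n| / 2 + i))) * Q := by
  rcases le_total n k with h | h
  · refine ⟨1, ?_, ?_⟩
    · rw [min_eq_right h, mul_one, ← Finset.prod_range_reflect]
      refine Finset.prod_congr rfl fun i hi => ?_
      have h1 := Finset.mem_range.1 hi
      have h2 : ((n - 1 - i : ℕ) : ℝ) = n - 1 - i := by
        rw [Nat.cast_sub (by omega), Nat.cast_sub (by omega), Nat.cast_one]
      have h3 : (0 : ℝ) ≤ (k : ℝ) - n := sub_nonneg.2 (by exact_mod_cast h)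
      rw [h2, abs_of_nonneg h3]
      congr 2
      ring
    · rw [min_eq_right h, mul_one]
      refine Finset.prod_congr rfl fun i hi => ?_
      have h3 : (0 : ℝ) ≤ (k : ℝ) - n := sub_nonneg.2 (by exact_mod_cast h)
      rw [abs_of_nonneg h3, sub_eq_add_neg X, ← C_neg]
      congr 2
      ring
  · obtain ⟨m, rfl⟩ := Nat.exists_eq_add_of_le h
    have hb : |(k : ℝ) - (k + m : ℕ)| / 2 = m / 2 := by
      push_cast
      rw [show (k : ℝ) - (k + m) = -m by ring, abs_neg, abs_of_nonneg (Nat.cast_nonneg m)]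
    rw [hb, min_eq_left h]
    refine ⟨∏ i ∈ Finset.range m, (X + C ((m : ℝ) / 2 - i)), ?_, ?_⟩
    · rw [Finset.prod_range_add]
      congr 1
      · rw [← Finset.prod_range_reflect]
        refine Finset.prod_congr rfl fun i hi => ?_
        have h1 := Finset.mem_range.1 hi
        have h2 : ((k - 1 - i : ℕ) : ℝ) = k - 1 - i := by
          rw [Nat.cast_sub (by omega), Nat.cast_sub (by omega), Nat.cast_one]
        rw [h2]
        congr 2
        push_cast
        ring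
      · refine Finset.prod_congr rfl fun i hi => ?_
        congr 2
        push_cast
        ring
    · rw [Nat.add_comm k m, Finset.prod_range_add, mul_comm]
      congr 1
      · refine Finset.prod_congr rfl fun i hi => ?_
        rw [sub_eq_add_neg X, ← C_neg]
        congr 2
        push_cast
        ring
      · refine Finset.prod_congr rfl fun i hi => ?_
        congr 2
        push_cast
        ring

/-- the integral against the kernel -/
lemma integral_ker (b : ℝ) (K : ℕ) (β : ℝ) (g : ℝ → ℂ)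
    (hg : ∀ j < K, IntegrableOn (fun u : ℝ => (Real.exp (-(β + j) * u) : ℂ) * g u) (Ioi 0)) :
    ∫ u in Ioi (0 : ℝ), (ker b K β u : ℂ) * g u =
      ∑ j ∈ Finset.range K, (rc b K j : ℂ) *
        ∫ u in Ioi (0 : ℝ), (Real.exp (-(β + j) * u) : ℂ) * g u := by
  have h1 : ∀ u : ℝ, (ker b K β u : ℂ) * g u =
      ∑ j ∈ Finset.range K, (rc b K j : ℂ) * ((Real.exp (-(β + j) * u) : ℂ) * g u) := by
    intro u
    unfold ker
    rw [Complex.ofReal_sum, Finset.sum_mul]
    refine Finset.sum_congr rfl fun j _ => ?_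
    rw [Complex.ofReal_mul]; ring
  simp only [h1]
  rw [integral_finsetSum _ fun j hj => (hg j (Finset.mem_range.1 hj)).const_mul _]
  refine Finset.sum_congr rfl fun j _ => ?_
  rw [integral_const_mul]

open Polynomial in
theorem repr_pos (n : ℕ) (k : ℕ) (φ : 𝓢(ℂ, ℂ)) (hm : HasMode k φ) (y : ℝ) :
    prof (BA.dz^[n] φ) y =
      Sop (ker (|(k : ℝ) - n| / 2) (min k n) (|(k : ℝ) - n| / 2)) (prof (BA.dzbar^[n] φ)) y := by
  set b : ℝ := |(k : ℝ) - n| / 2 with hb
  set K : ℕ := min k n with hK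
  obtain ⟨Q, hQ1, hQ2⟩ := exists_common n k
  rw [← hb, ← hK] at hQ1 hQ2
  set a : ℝ := (|((k : ℤ) : ℝ)| - n) / 2 with ha
  set G : EE a := gz n k φ hm 0 with hG
  set H : EE a := aeval (DD a) Q G with hH
  set f : EE a := gb n k φ hm n with hf
  have hcast : ((k : ℤ) : ℝ) = (k : ℝ) := by push_cast; rfl
  have hQ1' := hQ1
  have hQ2' := hQ2
  rw [← hcast] at hQ1' hQ2'
  have e1 : gz n k φ hm n =
      aeval (DD a) (∏ i ∈ Finset.range K, (X + C (b + 1 + i)) : ℝ[X]) H := by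
    rw [gz_eq, hQ1', aeval_mul, Module.End.mul_apply]
  have e2 : f = aeval (DD a) (∏ i ∈ Finset.range K, (X - C (b + i)) : ℝ[X]) H := by
    rw [hf, gb_eq, hQ2', aeval_mul, Module.End.mul_apply]
  set P : ℕ → EE a := fun j =>
    aeval (DD a) (∏ i ∈ (Finset.range K).erase j, (X - C (b + i)) : ℝ[X]) H with hP
  have e3 : gz n k φ hm n = f + ∑ j ∈ Finset.range K, (rc b K j : ℝ) • P j := by
    rw [e1, rc_poly, map_add, LinearMap.add_apply, ← e2, map_sum, LinearMap.sum_apply]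
    congr 1
    refine Finset.sum_congr rfl fun j _ => ?_
    rw [aeval_mul, aeval_C, Module.End.mul_apply, Module.algebraMap_end_apply]
  have e4 : ∀ j ∈ Finset.range K, DD a (P j) - (b + j) • P j = f := by
    intro j hj
    rw [← aeval_sub_C, hP, ← Module.End.mul_apply, ← aeval_mul,
      Finset.mul_prod_erase (Finset.range K) (fun i : ℕ => (X - C (b + i) : ℝ[X])) hj, ← e2]
  have e5 : prof (BA.dz^[n] φ) = (gz n k φ hm n : ℝ → ℂ) := (gz_n _ _ _ _).symm
  have e6 : prof (BA.dzbar^[n] φ) = (f : ℝ → ℂ) := (gb_n _ _ _ _).symm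
  rw [e5, e6]
  unfold Sop
  rw [integral_ker b K b (fun u => (f : ℝ → ℂ) (y + u)) (fun j _ => EE_integrable_pos f _ y)]
  have e7 : ∀ j ∈ Finset.range K, (rc b K j : ℂ) *
      ∫ u in Ioi (0 : ℝ), (Real.exp (-(b + j) * u) : ℂ) * (f : ℝ → ℂ) (y + u) =
      -((rc b K j : ℂ) * (P j : ℝ → ℂ) y) := by
    intro j hj
    rw [solve_pos (P j) f (b + j) (e4 j hj) y]
    ring
  rw [Finset.sum_congr rfl e7, e3]
  simp [Finset.sum_apply]

open Polynomial in
/-- `rc_poly` after `X ↦ -X-1` -/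
lemma rc_poly_neg (b : ℝ) (K : ℕ) :
    (∏ i ∈ Finset.range K, (X - C (b + i)) : ℝ[X]) =
      ∏ i ∈ Finset.range K, (X + C (b + 1 + i)) -
        ∑ j ∈ Finset.range K, C (rc b K j) *
          ∏ i ∈ (Finset.range K).erase j, (X + C (b + 1 + i)) := by
  have h := congrArg (compRingHom (-X - 1 : ℝ[X])) (rc_poly b K)
  rw [map_add, map_sum, map_prod, map_prod] at h
  simp only [map_add, map_mul, map_sub, map_prod, coe_compRingHom_apply, X_comp, C_comp] at h
  simp only [← C_add] at h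
  have h1 : ∏ i ∈ Finset.range K, (-X - 1 + C (b + 1 + (i : ℝ)) : ℝ[X]) =
      (-1) ^ K * ∏ i ∈ Finset.range K, (X - C (b + i)) := by
    rw [show ((-1 : ℝ[X]) ^ K) = ∏ _i ∈ Finset.range K, (-1 : ℝ[X]) by simp,
      ← Finset.prod_mul_distrib]
    refine Finset.prod_congr rfl fun i _ => ?_
    rw [C_add, C_add, C_add, C_1]
    ring
  have h2 : ∏ i ∈ Finset.range K, (-X - 1 - C (b + (i : ℝ)) : ℝ[X]) =
      (-1) ^ K * ∏ i ∈ Finset.range K, (X + C (b + 1 + i)) := by
    rw [show ((-1 : ℝ[X]) ^ K) = ∏ _i ∈ Finset.range K, (-1 : ℝ[X]) by simp,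
      ← Finset.prod_mul_distrib]
    refine Finset.prod_congr rfl fun i _ => ?_
    rw [C_add, C_add, C_add, C_1]
    ring
  have h3 : ∀ j ∈ Finset.range K,
      C (rc b K j) * ∏ i ∈ (Finset.range K).erase j, (-X - 1 - C (b + (i : ℝ)) : ℝ[X]) =
      -((-1) ^ K * (C (rc b K j) * ∏ i ∈ (Finset.range K).erase j, (X + C (b + 1 + i)))) := by
    intro j hj
    have h4 : ∏ i ∈ (Finset.range K).erase j, (-X - 1 - C (b + (i : ℝ)) : ℝ[X]) =
        (-1) ^ (K - 1) * ∏ i ∈ (Finset.range K).erase j, (X + C (b + 1 + i)) := by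
      rw [show ((-1 : ℝ[X]) ^ (K - 1)) = ∏ _i ∈ (Finset.range K).erase j, (-1 : ℝ[X]) by
        rw [Finset.prod_const, Finset.card_erase_of_mem hj, Finset.card_range],
        ← Finset.prod_mul_distrib]
      refine Finset.prod_congr rfl fun i _ => ?_
      rw [C_add, C_add, C_add, C_1]
      ring
    have h5 : ((-1 : ℝ[X]) ^ K) = (-1) ^ (K - 1) * (-1) := by
      rw [← pow_succ]
      congr 1
      have := Finset.mem_range.1 hj
      omega
    rw [h4, h5]
    ring
  rw [h1, h2, Finset.sum_congr rfl h3, Finset.sum_neg_distrib, ← Finset.mul_sum] at h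
  have h6 : ((-1 : ℝ[X]) ^ K) * ((-1) ^ K) = 1 := by
    rw [← mul_pow]; simp
  have h7 := congrArg (fun p => (-1 : ℝ[X]) ^ K * p) h
  beta_reduce at h7
  calc (∏ i ∈ Finset.range K, (X - C (b + i)) : ℝ[X])
      = ((-1 : ℝ[X]) ^ K * (-1) ^ K) * ∏ i ∈ Finset.range K, (X - C (b + i)) := by
        rw [h6, one_mul]
    _ = (-1 : ℝ[X]) ^ K * ((-1) ^ K * ∏ i ∈ Finset.range K, (X - C (b + i))) := by ring
    _ = _ := h7
    _ = ((-1 : ℝ[X]) ^ K * (-1) ^ K) * (∏ i ∈ Finset.range K, (X + C (b + 1 + i)) -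
        ∑ j ∈ Finset.range K, C (rc b K j) *
          ∏ i ∈ (Finset.range K).erase j, (X + C (b + 1 + i))) := by ring
    _ = _ := by rw [h6, one_mul]

open Polynomial in
theorem repr_neg (n : ℕ) (k : ℕ) (φ : 𝓢(ℂ, ℂ)) (hm : HasMode (-k) φ) (y : ℝ) :
    prof (BA.dz^[n] φ) (-y) =
      Sop (ker (|(k : ℝ) - n| / 2) (min k n) (|(k : ℝ) - n| / 2 + 1))
        (fun y => prof (BA.dzbar^[n] φ) (-y)) y := by
  set b : ℝ := |(k : ℝ) - n| / 2 with hb
  set K : ℕ := min k n with hK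
  obtain ⟨Q, hQ1, hQ2⟩ := exists_common n k
  rw [← hb, ← hK] at hQ1 hQ2
  set a : ℝ := (|((-k : ℤ) : ℝ)| - n) / 2 with ha
  have ha' : a = ((k : ℝ) - n) / 2 := by
    rw [ha]
    push_cast
    rw [abs_neg, abs_of_nonneg (Nat.cast_nonneg k)]
  have hba : 0 ≤ b + a := by
    rw [hb, ha']
    have := neg_abs_le ((k : ℝ) - n)
    linarith
  set G : EE a := gz n (-k) φ hm 0 with hG
  set H : EE a := aeval (DD a) Q G with hH
  set f : EE a := gb n (-k) φ hm n with hf
  have hcast : (k : ℝ) = -((-k : ℤ) : ℝ) := by push_cast; ring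
  have hQ1' := hQ1
  have hQ2' := hQ2
  rw [hcast] at hQ1' hQ2'
  rw [sub_neg_eq_add] at hQ2'
  rw [← sub_eq_add_neg] at hQ1'
  have e1 : gz n (-k) φ hm n =
      aeval (DD a) (∏ i ∈ Finset.range K, (X - C (b + i)) : ℝ[X]) H := by
    rw [gz_eq, hQ2', aeval_mul, Module.End.mul_apply]
  have e2 : f = aeval (DD a) (∏ i ∈ Finset.range K, (X + C (b + 1 + i)) : ℝ[X]) H := by
    rw [hf, gb_eq, hQ1', aeval_mul, Module.End.mul_apply]
  set P : ℕ → EE a := fun j =>
    aeval (DD a) (∏ i ∈ (Finset.range K).erase j, (X + C (b + 1 + i)) : ℝ[X]) H with hP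
  have e3 : gz n (-k) φ hm n = f - ∑ j ∈ Finset.range K, (rc b K j : ℝ) • P j := by
    rw [e1, rc_poly_neg, map_sub, LinearMap.sub_apply, ← e2, map_sum, LinearMap.sum_apply]
    congr 1
    refine Finset.sum_congr rfl fun j _ => ?_
    rw [aeval_mul, aeval_C, Module.End.mul_apply, Module.algebraMap_end_apply]
  have e4 : ∀ j ∈ Finset.range K, DD a (P j) + (b + 1 + j) • P j = f := by
    intro j hj
    rw [← aeval_add_C, hP, ← Module.End.mul_apply, ← aeval_mul,
      Finset.mul_prod_erase (Finset.range K) (fun i : ℕ => (X + C (b + 1 + i) : ℝ[X])) hj, ← e2]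
  have e5 : prof (BA.dz^[n] φ) = (gz n (-k) φ hm n : ℝ → ℂ) := (gz_n _ _ _ _).symm
  have e6 : prof (BA.dzbar^[n] φ) = (f : ℝ → ℂ) := (gb_n _ _ _ _).symm
  rw [e5, e6]
  unfold Sop
  have hpos : ∀ j : ℕ, 0 < b + 1 + (j : ℝ) + a := by
    intro j
    have : (0 : ℝ) ≤ j := Nat.cast_nonneg j
    linarith
  have hfe : ∀ u : ℝ, (f : ℝ → ℂ) (-(y + u)) = (f : ℝ → ℂ) (-y - u) := by
    intro u
    congr 1
    ring
  simp only [hfe]
  rw [integral_ker b K (b + 1) (fun u => (f : ℝ → ℂ) (-y - u))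
    (fun j _ => EE_integrable_neg f _ (-y) (hpos j))]
  have e7 : ∀ j ∈ Finset.range K, (rc b K j : ℂ) *
      ∫ u in Ioi (0 : ℝ), (Real.exp (-(b + 1 + j) * u) : ℂ) * (f : ℝ → ℂ) (-y - u) =
      (rc b K j : ℂ) * (P j : ℝ → ℂ) (-y) := by
    intro j hj
    rw [solve_neg (P j) f (b + 1 + j) (hpos j) (e4 j hj) (-y)]
  rw [Finset.sum_congr rfl e7, e3]
  simp [Finset.sum_apply]

open Polynomial in
theorem repr_zero (n : ℕ) (φ : 𝓢(ℂ, ℂ)) (hm : HasMode 0 φ) (y : ℝ) :
    prof (BA.dz^[n] φ) y = prof (BA.dzbar^[n] φ) y := by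
  have e1 := gz_eq n 0 φ hm n
  have e2 := gb_eq n 0 φ hm n
  have e3 : (∏ i ∈ Finset.range n, (X + C (((n : ℝ) + ((0 : ℤ) : ℝ)) / 2 - i)) : ℝ[X]) =
      ∏ i ∈ Finset.range n, (X + C (((n : ℝ) - ((0 : ℤ) : ℝ)) / 2 - i)) := by
    simp
  rw [e3] at e1
  have e4 : gz n 0 φ hm n = gb n 0 φ hm n := e1.trans e2.symm
  rw [← gz_n n 0 φ hm, ← gb_n n 0 φ hm, e4]

end Pool.Agent.Helper68.BA
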